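import Pool.Agent.H14.DV.Ext

/-!
# Admissible sets of places and points
-/

set_option autoImplicit false
set_option linter.unusedSectionVars false

open MvPolynomial Pool.Agent.TH954.X Pool.Agent.TH954.V Pool.Agent.TH954.Z Pool.Agent.H14.LB
open NumberField

namespace Pool.Agent.H14.DV

variable {K : Type} [Field K] [NumberField K] {n β : ℕ}

lemma lamL_zero {E : Type} {L : Type} [Field L] [Algebra K L] {ι : Type} [Fintype ι]
    (δ : E → ι → ℕ) (f : E → MvPolynomial (ι × Fin n) K) (u : ι → Fin n → L)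
    (h : ∀ j, ev (f j) u = 0) (w : AbsoluteValue L ℝ) : lamL L δ f u w = 0 := by
  unfold lamL
  have h1 : (⨆ i, nvW w (δ i) (f i) u) = 0 := by
    have h2 : (fun i => nvW w (δ i) (f i) u) = fun _ => 0 := by
      funext i
      unfold nvW
      rw [h i, map_zero, zero_div]
    rw [iSup, h2]
    rcases isEmpty_or_nonempty E with he | he
    · have := Real.iSup_of_isEmpty (fun _ : E => (0 : ℝ))
      exact this
    · exact ciSup_const
  rw [h1, Real.log_zero, neg_zero, max_self]

lemma lamL_FS {E : Type} [Fintype E] {A : Fin β → AbV K n} (δ : E → Fin β → ℕ)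
    (f : E → MvPolynomial (Fin β × Fin n) K) (hf : ∀ i, MH (δ i) (f i)) {L : Type} [Field L]
    [NumberField L] [Algebra K L] (P : Bp A L) : FS (lamL L δ f (vc P)) := by
  by_cases h : ∀ j, ev (f j) (vc P) = 0
  · have h1 : lamL L δ f (vc P) = fun _ => 0 := funext (fun w => lamL_zero δ f _ h w)
    rw [h1]
    exact FS_zero
  · push Not at h
    obtain ⟨j, hj⟩ := h
    rw [lamL_eq]
    exact Pool.Agent.TH954.Y.FS_lam0 δ (fun i => mp L (f i)) (fun i => MH_mp (hf i))
      (fun b => (P b).2.1.ne_zero) ⟨j, by rwa [ev_mp]⟩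

/-- the total local height is bounded by the height -/
lemma tot_lam_le (A : Fin β → AbV K n) (E : Type) [Fintype E]
    (f : E → MvPolynomial (Fin β × Fin n) K) (δ : E → Fin β → ℕ) (hf : ∀ i, MH (δ i) (f i)) :
    ∃ A1 A2 : ℝ, 0 ≤ A1 ∧ 0 ≤ A2 ∧ ∀ (L : Type) [Field L] [NumberField L] [Algebra K L]
      (P : Bp A L), tot (lamL L δ f (vc P)) ≤ A1 * htL P + A2 * Module.finrank ℚ L := by
  obtain ⟨A1, A2, hA1, hA2, hfam⟩ := tot_fam_le A f δ hf
  refine ⟨A1, A2, hA1, hA2, fun L _ _ _ P => ?_⟩
  by_cases hD : ∀ j, ev (f j) (vc P) = 0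
  · have h1 : lamL L δ f (vc P) = fun _ => 0 := funext (fun w => lamL_zero δ f _ hD w)
    rw [h1, tot_zero]
    have := htL_nonneg P
    positivity
  · exact hfam L P hD

/-- the type of the conditions on a finite set of places and a point -/
abbrev Cnd (A : Fin β → AbV K n) : Type 1 :=
  ∀ (L : Type) [Field L] [NumberField L] [Algebra K L], Pls L → Bp A L → Prop

/-- the proximity functions of the tuples of points with the condition are bounded by the
heights -/
def Adm (A : Fin β → AbV K n) (𝒮 : Cnd A) : Prop :=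
  ∀ (E : Type) [Fintype E] (f : E → MvPolynomial (Fin β × Fin n) K) (δ : E → Fin β → ℕ),
    (∀ i, MH (δ i) (f i)) → ∃ A1 A2 : ℝ, 0 ≤ A1 ∧ 0 ≤ A2 ∧
      ∀ (L : Type) [Field L] [NumberField L] [Algebra K L] (S : Pls L) (k : ℕ)
        (y : Fin (k + 1) → Bp A L) (R : ℝ), (∀ i, 𝒮 L S (y i)) → (∀ i, htL (y i) ≤ R) →
        part S (fun w => ⨆ i, lamL L δ f (vc (y i)) w) ≤ A1 * R + A2 * Module.finrank ℚ L

/-- a bounded number of places -/
lemma adm_card (A : Fin β → AbV K n) (s : ℕ) : Adm A (fun _ _ _ _ S _ => S.card ≤ s) := by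
  intro E _ f δ hf
  obtain ⟨A1, A2, hA1, hA2, htot⟩ := tot_lam_le A E f δ hf
  refine ⟨s * A1, s * A2, by positivity, by positivity, fun L _ _ _ S k y R hS hR => ?_⟩
  have hS0 : S.card ≤ s := hS 0
  have hR0 : 0 ≤ R := (htL_nonneg (y 0)).trans (hR 0)
  have h1 := part_sup_le S (fun i => lamL L δ f (vc (y i))) (fun i w => le_max_left _ _)
    (fun i => lamL_FS δ f hf (y i)) (A1 * R + A2 * Module.finrank ℚ L) (fun i =>
      (htot L (y i)).trans (by
        have := mul_le_mul_of_nonneg_left (hR i) hA1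
        linarith))
  have h2 : (S.card : ℝ) * (A1 * R + A2 * Module.finrank ℚ L) ≤
      s * (A1 * R + A2 * Module.finrank ℚ L) :=
    mul_le_mul_of_nonneg_right (by exact_mod_cast hS0) (by positivity)
  have h3 : (s : ℝ) * (A1 * R + A2 * Module.finrank ℚ L) =
      s * A1 * R + s * A2 * Module.finrank ℚ L := by ring
  linarith

/-- the point is defined over an extension of `K` of degree at most `r` -/
def DegLe {A : Fin β → AbV K n} (r : ℕ) {L : Type} [Field L] [Algebra K L] (P : Bp A L) : Prop :=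
  ∃ F : IntermediateField K L, Module.finrank K F ≤ r ∧ ∀ b c, vc P b c ∈ F

section ext

variable {F L : Type} [Field F] [NumberField F] [Algebra K F] [Field L] [NumberField L]
  [Algebra K L] [Algebra F L] [IsScalarTower K F L]

lemma sup_powA {J : Type} (g : J → ℝ) (hg : ∀ i, 0 ≤ g i) (t : ℕ) (ht : 1 ≤ t) :
    (⨆ i, g i ^ t) = (⨆ i, g i) ^ t := by
  rcases isEmpty_or_nonempty J with he | he
  · rw [Real.iSup_of_isEmpty, Real.iSup_of_isEmpty, zero_pow (by omega)]
  · rw [Real.iSup_pow hg]

/-- the local height at a place of an extension -/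
lemma lam_ext {A : Fin β → AbV K n} {E : Type} (δ : E → Fin β → ℕ)
    (f : E → MvPolynomial (Fin β × Fin n) K) (P : Bp A F) (w : AbsoluteValue L ℝ)
    (u : AbsoluteValue F ℝ) (t : ℕ) (ht : 1 ≤ t) (hwu : ∀ x, w (algebraMap F L x) = u x ^ t) :
    lamL L δ f (vc (bcB (IsScalarTower.toAlgHom K F L) P)) w = t * lamL F δ f (vc P) u := by
  have hnv : ∀ i, nvW w (δ i) (f i) (vc (bcB (IsScalarTower.toAlgHom K F L) P)) =
      nvW u (δ i) (f i) (vc P) ^ t := by
    intro i
    unfold nvW
    rw [ev_bcB]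
    have h1 : w ((IsScalarTower.toAlgHom K F L) (ev (f i) (vc P))) = u (ev (f i) (vc P)) ^ t :=
      hwu _
    rw [h1, div_pow, ← Finset.prod_pow]
    congr 1
    refine Finset.prod_congr rfl (fun j _ => ?_)
    have h2 : (fun c => w (vc (bcB (IsScalarTower.toAlgHom K F L) P) j c)) =
        fun c => u (vc P j c) ^ t := funext (fun c => hwu _)
    have h3 : (⨆ c, w (vc (bcB (IsScalarTower.toAlgHom K F L) P) j c)) =
        (⨆ c, u (vc P j c)) ^ t := by
      rw [← sup_powA _ (fun c => u.nonneg _) t ht]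
      exact congrArg iSup h2
    rw [h3, ← pow_mul, ← pow_mul, mul_comm]
  unfold lamL
  have h4 : (⨆ i, nvW w (δ i) (f i) (vc (bcB (IsScalarTower.toAlgHom K F L) P))) =
      (⨆ i, nvW u (δ i) (f i) (vc P)) ^ t := by
    rw [← sup_powA _ (fun i => nvW_nonneg _ _ _ _) t ht]
    exact congrArg iSup (funext hnv)
  rw [h4, Real.log_pow, ← mul_neg]
  have h5 : (0 : ℝ) ≤ t := Nat.cast_nonneg _
  rw [mul_max_of_nonneg _ _ h5, mul_zero]

end ext

/-- the sum of the valuations of a natural number -/
lemma sum_val_le (L : Type) [Field L] [NumberField L] (m : ℕ) (hm : m ≠ 0)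
    (T : Finset (FinitePlace L)) :
    ∑ v ∈ T, -Real.log (v (m : L)) ≤ Module.finrank ℚ L * Real.log m := by
  have hmL : (m : L) ≠ 0 := by exact_mod_cast hm
  have h1 := tot_log (K := L) hmL
  have hFS : FS (fun v : AbsoluteValue L ℝ => (-1 : ℝ) * Real.log (v (m : L))) :=
    FS_mul (FS_log hmL) _
  have h2 : ∀ v : FinitePlace L, 0 ≤ (-1 : ℝ) * Real.log (av v (m : L)) := by
    intro v
    have h3 : av v (m : L) ≤ 1 := by
      rw [av_apply, ← FinitePlace.norm_embedding_eq v, FinitePlace.norm_embedding]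
      exact NumberField.HeightOneSpectrum.adicAbv_natCast_le_one (R := 𝓞 L) L v.maximalIdeal m
    have := Real.log_nonpos ((av v).nonneg _) h3
    linarith
  have h3 : ∑ v ∈ T, -Real.log (v (m : L)) ≤
      ∑ᶠ v : FinitePlace L, (-1 : ℝ) * Real.log (av v (m : L)) := by
    classical
    rw [finsum_eq (g := fun v : AbsoluteValue L ℝ => (-1 : ℝ) * Real.log (v (m : L)))
      (T ∪ hFS.toFinset) (fun v hv => Finset.mem_union_right _
      ((Set.Finite.mem_toFinset hFS).mpr hv))]
    refine le_trans (le_of_eq (Finset.sum_congr rfl (fun v _ => ?_)))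
      (Finset.sum_le_sum_of_subset_of_nonneg Finset.subset_union_left (fun v _ _ => h2 v))
    rw [av_apply]
    ring
  have h4 : tot (fun v : AbsoluteValue L ℝ => (-1 : ℝ) * Real.log (v (m : L))) = 0 := by
    rw [tot_mul (FS_log hmL), h1, mul_zero]
  unfold tot at h4
  have h5 : ∑ w : InfinitePlace L, (w.mult : ℝ) * ((-1 : ℝ) * Real.log (ai w (m : L))) =
      -(Module.finrank ℚ L * Real.log m) := by
    have h6 : ∀ w : InfinitePlace L, (w.mult : ℝ) * ((-1 : ℝ) * Real.log (ai w (m : L))) =
        (w.mult : ℝ) * -Real.log m := by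
      intro w
      rw [ai_apply, InfinitePlace.map_natCast]
      ring
    rw [Finset.sum_congr rfl (fun w _ => h6 w), ← Finset.sum_mul, ← InfinitePlace.sum_mult_eq]
    push_cast
    ring
  rw [h5] at h4
  linarith

/-- the places over a finite set of primes, and the points of bounded degree -/
lemma adm_deg (A : Fin β → AbV K n) (r : ℕ) (Sp : Finset ℕ) (hSp : ∀ p ∈ Sp, p ≠ 0) :
    Adm A (fun L _ _ _ S P => (∀ v ∈ S.fin, ∃ p ∈ Sp, v (p : L) < 1) ∧ DegLe r P) := by
  intro E _ f δ hf
  obtain ⟨A1, A2, hA1, hA2, htot⟩ := tot_lam_le A E f δ hf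
  set dK : ℝ := (Module.finrank ℚ K : ℝ) with hdK
  set Λ : ℝ := 1 + ∑ p ∈ Sp, Real.log p / Real.log 2 with hΛ
  have hl2 : 0 < Real.log 2 := Real.log_pos (by norm_num)
  have hΛ0 : 0 ≤ Λ := by
    have : 0 ≤ ∑ p ∈ Sp, Real.log p / Real.log 2 :=
      Finset.sum_nonneg (fun p _ => div_nonneg (Real.log_natCast_nonneg p) hl2.le)
    linarith
  refine ⟨r * dK * Λ * A1, r * dK * Λ * A2, by positivity, by positivity,
    fun L _ _ _ S k y R hS hR => ?_⟩
  set dL : ℝ := (Module.finrank ℚ L : ℝ) with hdL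
  have hdL0 : 0 < dL := Nat.cast_pos.2 Module.finrank_pos
  have hR0 : 0 ≤ R := (htL_nonneg (y 0)).trans (hR 0)
  set B : ℝ := r * dK * (A1 * R / dL + A2) with hB
  have hB0 : 0 ≤ B := by positivity
  -- the local bounds
  have key : ∀ i, (∀ w : InfinitePlace L, lamL L δ f (vc (y i)) (ai w) ≤ B) ∧
      ∀ w ∈ S.fin, lamL L δ f (vc (y i)) (av w) ≤
        (∑ p ∈ Sp, -Real.log (w (p : L))) / Real.log 2 * B := by
    intro i
    obtain ⟨hS1, F, hFr, hF⟩ := hS i
    have iNF : NumberField F := NumberField.of_intermediateField F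
    set y' : Bp A F := fun b => ⟨fun c => ⟨vc (y i) b c, hF b c⟩, by
      obtain ⟨⟨j, h1, h2⟩, h3⟩ := (y i b).2
      refine ⟨⟨j, Subtype.ext h1, fun l hl => Subtype.ext (h2 l hl)⟩, fun l => ?_⟩
      have h4 := h3 l
      have h5 : algebraMap F L (aeval (fun c => (⟨vc (y i) b c, hF b c⟩ : F)) ((A b).eqn l)) =
          aeval (y i b).1 ((A b).eqn l) := by
        exact MvPolynomial.comp_aeval_apply (f := fun c => (⟨vc (y i) b c, hF b c⟩ : F))
          (IsScalarTower.toAlgHom K F L) ((A b).eqn l)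
      rw [h4] at h5
      exact (map_eq_zero _).1 h5⟩ with hy'
    have hyy : bcB (IsScalarTower.toAlgHom K F L) y' = y i := by
      funext b
      exact Subtype.ext (funext fun c => rfl)
    set dF : ℝ := (Module.finrank ℚ F : ℝ) with hdF
    have hdF0 : 0 < dF := Nat.cast_pos.2 Module.finrank_pos
    have hdFr : dF ≤ r * dK := by
      have h1 := finrank_scale (L := K) (L' := F)
      rw [hdF, h1, hdK]
      exact mul_le_mul_of_nonneg_right (by exact_mod_cast hFr) (Nat.cast_nonneg _)
    have hsc := finrank_scale (L := F) (L' := L)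
    have hht := htL_scale (L' := L) y'
    rw [hyy] at hht
    have hq0 : (0 : ℝ) < Module.finrank F L := by
      by_contra hcon
      have h1 : (Module.finrank F L : ℝ) = 0 := le_antisymm (not_lt.1 hcon) (Nat.cast_nonneg _)
      rw [h1, zero_mul] at hsc
      exact hdL0.ne' hsc
    have hT : tot (lamL F δ f (vc y')) ≤ B := by
      refine (htot F y').trans ?_
      have h1 : htL y' ≤ r * dK * (R / dL) := by
        have h2 : (Module.finrank F L : ℝ) * htL y' ≤ R := hht ▸ hR i
        have h3 : R / dL = R / (Module.finrank F L * dF) := by rw [hdL, hsc]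
        have h4 : htL y' ≤ dF * (R / dL) := by
          rw [h3]
          have h5 : dF * (R / (Module.finrank F L * dF)) = R / Module.finrank F L := by
            field_simp
          rw [h5, le_div_iff₀ hq0]
          linarith
        exact h4.trans (mul_le_mul_of_nonneg_right hdFr (by positivity))
      have h2 := mul_le_mul_of_nonneg_left h1 hA1
      have h3 := mul_le_mul_of_nonneg_left hdFr hA2
      have h4 : B = A1 * (r * dK * (R / dL)) + A2 * (r * dK) := by
        rw [hB]
        ring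
      linarith
    have hFS : FS (lamL F δ f (vc y')) := lamL_FS δ f hf y'
    have h0 : ∀ u, 0 ≤ lamL F δ f (vc y') u := fun u => le_max_left _ _
    refine ⟨fun w => ?_, fun w hw => ?_⟩
    · have h1 := lam_ext δ f y' (ai w) (ai (w.comap (algebraMap F L))) 1 le_rfl (fun x => by
        rw [pow_one, ai_apply, ai_apply, InfinitePlace.comap_apply])
      rw [hyy] at h1
      rw [h1, Nat.cast_one, one_mul]
      have h2 := single_inf h0 hFS (w.comap (algebraMap F L))
      refine le_trans ?_ (h2.trans hT)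
      refine le_mul_of_one_le_left (h0 _) ?_
      exact_mod_cast (w.comap (algebraMap F L)).mult_pos
    · obtain ⟨u, t, ht, hu⟩ := exists_under F L w
      have h1 := lam_ext δ f y' (av w) (av u) t ht hu
      rw [hyy] at h1
      rw [h1]
      have h2 := (single_fin h0 hFS u).trans hT
      obtain ⟨p, hp, hpw⟩ := hS1 w hw
      have h3 : w (p : L) = u (p : F) ^ t := by
        have := hu (p : F)
        rwa [map_natCast] at this
      have h4 : u (p : F) < 1 := by
        by_contra hcon
        have h5 : 1 ≤ u (p : F) ^ t := one_le_pow₀ (not_lt.1 hcon)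
        linarith
      have h5 := le_half F u p (hSp p hp) h4
      have h6 : 0 < u (p : F) := FinitePlace.pos_iff.2 (by exact_mod_cast hSp p hp)
      have h7 : (t : ℝ) * Real.log 2 ≤ -Real.log (w (p : L)) := by
        rw [h3, Real.log_pow]
        have h8 := Real.log_le_log h6 h5
        rw [one_div, Real.log_inv] at h8
        have h9 : (0 : ℝ) ≤ t := Nat.cast_nonneg _
        nlinarith
      have h8 : -Real.log (w (p : L)) ≤ ∑ p ∈ Sp, -Real.log (w (p : L)) := by
        refine Finset.single_le_sum (f := fun p : ℕ => -Real.log (w (p : L))) (fun q _ => ?_) hp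
        have h9 : w (q : L) ≤ 1 := by
          rw [← FinitePlace.norm_embedding_eq w, FinitePlace.norm_embedding]
          exact NumberField.HeightOneSpectrum.adicAbv_natCast_le_one (R := 𝓞 L) L
            w.maximalIdeal q
        have := Real.log_nonpos (apply_nonneg w _) h9
        linarith
      have h9 : (t : ℝ) ≤ (∑ p ∈ Sp, -Real.log (w (p : L))) / Real.log 2 := by
        rw [le_div_iff₀ hl2]
        linarith
      exact (mul_le_mul_of_nonneg_left h2 (Nat.cast_nonneg _)).trans
        (mul_le_mul_of_nonneg_right h9 hB0)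
  have hne : Nonempty (Fin (k + 1)) := ⟨0⟩
  have hinf : ∑ w ∈ S.inf, (w.mult : ℝ) * (⨆ i, lamL L δ f (vc (y i)) (ai w)) ≤ dL * B := by
    calc ∑ w ∈ S.inf, (w.mult : ℝ) * (⨆ i, lamL L δ f (vc (y i)) (ai w))
        ≤ ∑ w ∈ S.inf, (w.mult : ℝ) * B := Finset.sum_le_sum (fun w _ =>
          mul_le_mul_of_nonneg_left (ciSup_le (fun i => (key i).1 w)) (Nat.cast_nonneg _))
      _ ≤ ∑ w : InfinitePlace L, (w.mult : ℝ) * B :=
          Finset.sum_le_sum_of_subset_of_nonneg (Finset.subset_univ _)
            (fun _ _ _ => mul_nonneg (Nat.cast_nonneg _) hB0)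
      _ = dL * B := by
          rw [← Finset.sum_mul, hdL, ← InfinitePlace.sum_mult_eq]
          push_cast
          ring
  have hfin : ∑ w ∈ S.fin, (⨆ i, lamL L δ f (vc (y i)) (av w)) ≤
      dL * B * ∑ p ∈ Sp, Real.log p / Real.log 2 := by
    calc ∑ w ∈ S.fin, (⨆ i, lamL L δ f (vc (y i)) (av w))
        ≤ ∑ w ∈ S.fin, (∑ p ∈ Sp, -Real.log (w (p : L))) / Real.log 2 * B :=
          Finset.sum_le_sum (fun w hw => ciSup_le (fun i => (key i).2 w hw))
      _ = (∑ p ∈ Sp, ∑ w ∈ S.fin, -Real.log (w (p : L))) / Real.log 2 * B := by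
          rw [← Finset.sum_mul, ← Finset.sum_div, Finset.sum_comm]
      _ ≤ (∑ p ∈ Sp, dL * Real.log p) / Real.log 2 * B := by
          refine mul_le_mul_of_nonneg_right (div_le_div_of_nonneg_right ?_ hl2.le) hB0
          exact Finset.sum_le_sum (fun p hp => sum_val_le L p (hSp p hp) S.fin)
      _ = dL * B * ∑ p ∈ Sp, Real.log p / Real.log 2 := by
          rw [← Finset.mul_sum, ← Finset.sum_div]
          ring
  have hpart : part S (fun w => ⨆ i, lamL L δ f (vc (y i)) w) ≤ dL * B * Λ := by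
    unfold part
    rw [hΛ]
    linarith
  refine hpart.trans (le_of_eq ?_)
  rw [hB]
  field_simp

end Pool.Agent.H14.DV
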