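import Pool.Agent.H14.DV.Part

/-!
# Places of an extension field
-/

set_option autoImplicit false
set_option linter.unusedSectionVars false

open MvPolynomial Pool.Agent.TH954.X Pool.Agent.TH954.V Pool.Agent.TH954.Z Pool.Agent.H14.LB
open NumberField IsDedekindDomain

namespace Pool.Agent.H14.DV

lemma toNN_pow {a b : NNReal} (ha : a ≠ 0) (hb : b ≠ 0) (e f : ℕ) (hf : f ≠ 0) (hab : b = a ^ f)
    (x : WithZero (Multiplicative ℤ)) :
    WithZeroMulInt.toNNReal hb (x ^ e) = WithZeroMulInt.toNNReal ha x ^ (f * e) := by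
  rw [map_pow, pow_mul]
  congr 1
  by_cases hx : x = 0
  · subst hx
    rw [map_zero, map_zero, zero_pow hf]
  · rw [WithZeroMulInt.toNNReal_neg_apply hb hx, WithZeroMulInt.toNNReal_neg_apply ha hx, hab,
      ← zpow_natCast, ← zpow_natCast, ← zpow_mul, ← zpow_mul, mul_comm]

/-- a finite place of an extension restricts to a power of a finite place -/
lemma exists_under (F L : Type) [Field F] [NumberField F] [Field L] [NumberField L] [Algebra F L]
    (w : FinitePlace L) : ∃ (u : FinitePlace F) (t : ℕ), 1 ≤ t ∧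
      ∀ x : F, w (algebraMap F L x) = u x ^ t := by
  set W : HeightOneSpectrum (𝓞 L) := w.maximalIdeal with hW
  set U : HeightOneSpectrum (𝓞 F) := HeightOneSpectrum.under (𝓞 F) W with hU
  have hlo : W.asIdeal.LiesOver U.asIdeal := ⟨rfl⟩
  have hN := Ideal.absNorm_eq_pow_inertiaDeg'_of_liesOver W.asIdeal U.asIdeal U.isPrime U.ne_bot
  set f := U.asIdeal.inertiaDeg' W.asIdeal with hf
  set e := U.asIdeal.ramificationIdx' W.asIdeal with he
  have hf0 : f ≠ 0 := by
    intro h
    rw [h, pow_zero] at hN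
    have := NumberField.HeightOneSpectrum.one_lt_absNorm W
    omega
  have he0 : e ≠ 0 := Ideal.IsDedekindDomain.ramificationIdx'_ne_zero_of_liesOver W.asIdeal U.ne_bot
  refine ⟨FinitePlace.mk U, f * e, Nat.one_le_iff_ne_zero.2 (mul_ne_zero hf0 he0), fun x => ?_⟩
  have h1 : w (algebraMap F L x) = HeightOneSpectrum.adicAbv L W (algebraMap F L x) := by
    rw [← FinitePlace.norm_embedding_eq w, FinitePlace.norm_embedding]
  have h2 : FinitePlace.mk U x = HeightOneSpectrum.adicAbv F U x := by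
    rw [FinitePlace.mk_apply, FinitePlace.norm_embedding]
  rw [h1, h2, HeightOneSpectrum.adicAbv_def, HeightOneSpectrum.adicAbv_def,
    ← HeightOneSpectrum.valuation_liesOver L U W x]
  rw [toNN_pow (HeightOneSpectrum.absNorm_ne_zero U) (HeightOneSpectrum.absNorm_ne_zero W) _ f hf0
    (by exact_mod_cast hN)]
  push_cast
  rfl

/-- a number of absolute value less than one at a finite place has absolute value at most a half -/
lemma le_half (F : Type) [Field F] [NumberField F] (u : FinitePlace F) (m : ℕ) (hm : m ≠ 0)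
    (h : u (m : F) < 1) : u (m : F) ≤ 1 / 2 := by
  have hx : ((m : ℕ) : 𝓞 F) ≠ 0 := by exact_mod_cast hm
  have h1 := FinitePlace.apply_mul_absNorm_pow_eq_one u hx
  have h2 : u (((m : ℕ) : 𝓞 F) : F) = u (m : F) := by
    congr 1
  rw [h2] at h1
  set k := multiplicity u.maximalIdeal.asIdeal (Ideal.span {((m : ℕ) : 𝓞 F)}) with hk
  have hN : (2 : ℝ) ≤ (u.maximalIdeal.asIdeal.absNorm : ℝ) := by
    have := NumberField.HeightOneSpectrum.one_lt_absNorm u.maximalIdeal
    exact_mod_cast this
  have hk0 : k ≠ 0 := by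
    intro h0
    rw [h0, pow_zero, mul_one] at h1
    linarith
  have h3 : (2 : ℝ) ≤ (u.maximalIdeal.asIdeal.absNorm : ℝ) ^ k := by
    calc (2 : ℝ) ≤ (u.maximalIdeal.asIdeal.absNorm : ℝ) ^ 1 := by rw [pow_one]; exact hN
      _ ≤ _ := pow_le_pow_right₀ (by linarith) (Nat.one_le_iff_ne_zero.2 hk0)
  have h4 : 0 ≤ u (m : F) := apply_nonneg u _
  nlinarith

end Pool.Agent.H14.DV
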