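import Pool.Agent.H14.DV.Voj

/-!
# Integral points
-/

set_option autoImplicit false
set_option linter.unusedSectionVars false

open MvPolynomial Pool.Agent.TH954.X Pool.Agent.TH954.V Pool.Agent.TH954.Z Pool.Agent.H14.LB
open Pool.Agent.H14.PL NumberField

namespace Pool.Agent.H14.DV

variable {K : Type} [Field K] [NumberField K] {n β : ℕ}

/-- the local heights are bounded from below -/
lemma part_lower {ι : Type} [Fintype ι] {E : Type} [Fintype E]
    (f : E → MvPolynomial (ι × Fin n) K) (δ : E → ι → ℕ) (hf : ∀ i, MH (δ i) (f i)) :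
    ∃ C : ℝ, 0 ≤ C ∧ ∀ (L : Type) [Field L] [NumberField L] [Algebra K L] (S : Pls L)
      (u : ι → Fin n → L), (∀ j, u j ≠ 0) → (¬ ∀ i, ev (f i) u = 0) →
      -(C * Module.finrank ℚ L) ≤
        part S (fun w : AbsoluteValue L ℝ => -Real.log (⨆ i, nvW w (δ i) (f i) u)) := by
  classical
  choose Ag Mg hMg hAg using fun i => nvW_le (f i) (δ i) (hf i)
  choose ck hck0 hck using fun i => tot_kap (Ag i) (hMg i) 1
  refine ⟨∑ i, ck i, Finset.sum_nonneg (fun i _ => hck0 i), fun L _ _ _ S u hu h0 => ?_⟩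
  push Not at h0
  obtain ⟨i0, hi0⟩ := h0
  have hne : Nonempty E := ⟨i0⟩
  have hp : ∀ w : AbsoluteValue L ℝ, 0 < ⨆ i, nvW w (δ i) (f i) u := fun w => by
    have h1 := Pool.Agent.TH954.Y.sup_nvW_pos w δ (fun i => mp L (f i)) hu
      ⟨i0, by rw [ev_mp]; exact hi0⟩
    simpa only [nvW_mp] using h1
  have h1 : ∀ w : AbsoluteValue L ℝ, (-1 : ℝ) * ∑ i, Real.log (kap (Ag i) (Mg i) 1 w) ≤
      -Real.log (⨆ i, nvW w (δ i) (f i) u) := by
    intro w
    obtain ⟨i1, hi1⟩ := exists_eq_ciSup_of_finite (f := fun i => nvW w (δ i) (f i) u)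
    have h2 := hp w
    rw [← hi1] at h2 ⊢
    have h3 := Real.log_le_log h2 (hAg i1 L w u hu)
    have h4 : Real.log (kap (Ag i1) (Mg i1) 1 w) ≤ ∑ i, Real.log (kap (Ag i) (Mg i) 1 w) :=
      Finset.single_le_sum (f := fun i => Real.log (kap (Ag i) (Mg i) 1 w))
        (fun i _ => Real.log_nonneg (one_le_kap (Ag i) (hMg i) 1 w)) (Finset.mem_univ i1)
    linarith
  have h2 := part_mono S h1
  rw [part_mul, part_sum] at h2
  have h3 : ∑ i, part S (fun w : AbsoluteValue L ℝ => Real.log (kap (Ag i) (Mg i) 1 w)) ≤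
      ∑ i, ck i * Module.finrank ℚ L :=
    Finset.sum_le_sum (fun i _ => (part_le_tot S
      (fun w => Real.log_nonneg (one_le_kap (Ag i) (hMg i) 1 w)) (hck i L).1).trans (hck i L).2)
  rw [← Finset.sum_mul] at h3
  linarith

/-- the points `P` of `B(L)` over which there is a point of `X(L)` outside `D` which is integral with
respect to `D` outside `S`, up to the height with respect to `W` -/
def IntX {A : Fin β → AbV K n} {E1 E2 E3 : Type}
    (g : E1 → MvPolynomial (Option (Fin β) × Fin n) K)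
    (f : E2 → MvPolynomial (Option (Fin β) × Fin n) K) (δ : E2 → Option (Fin β) → ℕ)
    (f' : E3 → MvPolynomial (Option (Fin β) × Fin n) K) (δ' : E3 → Option (Fin β) → ℕ)
    (m η C : ℝ) {L : Type} [Field L] [NumberField L] [Algebra K L] (S : Pls L) (P : Bp A L) :
    Prop :=
  ∃ t : Fin n → L, t ≠ 0 ∧ (∀ i, ev (g i) (fl t P) = 0) ∧ (¬ ∀ i, ev (f i) (fl t P) = 0) ∧
    tot (fun w : AbsoluteValue L ℝ => -Real.log (⨆ i, nvW w (δ i) (f i) (fl t P))) -
      part S (fun w : AbsoluteValue L ℝ => -Real.log (⨆ i, nvW w (δ i) (f i) (fl t P))) ≤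
    m * tot (fun w : AbsoluteValue L ℝ => -Real.log (⨆ i, nvW w (δ' i) (f' i) (fl t P))) +
      η * htL P + C * Module.finrank ℚ L

/-- **Integral points.** -/
theorem intX (A : Fin β → AbV K n) (hA : Top A) (E1 E2 E3 : Type) [Fintype E1] [Fintype E2]
    [Fintype E3]
    (g : E1 → MvPolynomial (Option (Fin β) × Fin n) K) (hg : ∀ i, ∃ γ, MH γ (g i))
    (f : E2 → MvPolynomial (Option (Fin β) × Fin n) K) (δ : E2 → Option (Fin β) → ℕ)
    (hf : ∀ i, MH (δ i) (f i))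
    (f' : E3 → MvPolynomial (Option (Fin β) × Fin n) K) (δ' : E3 → Option (Fin β) → ℕ)
    (hf' : ∀ i, MH (δ' i) (f' i))
    (hcod : ∀ (F : Type) [Field F] [Algebra K F] (t : Fin n → F) (P : Bp A F), t ≠ 0 →
      (∀ i, ev (g i) (fl t P) = 0) → (∀ i, ev (f i) (fl t P) = 0) →
      td (K := K) (vc P) + ((1 : ℕ) : Cardinal) ≤ ((∑ b, (A b).dim : ℕ) : Cardinal))
    (hcod' : ∀ (F : Type) [Field F] [Algebra K F] (t : Fin n → F) (P : Bp A F), t ≠ 0 →
      (∀ i, ev (g i) (fl t P) = 0) → (∀ i, ev (f' i) (fl t P) = 0) →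
      td (K := K) (vc P) + ((2 : ℕ) : Cardinal) ≤ ((∑ b, (A b).dim : ℕ) : Cardinal))
    (G : MvPolynomial (Fin β × Fin n) K) (σ0 : Fin β → ℕ) (hσ0 : MH σ0 G) (hσ1 : ∀ b, 1 ≤ σ0 b)
    (hG : ∀ (F : Type) [Field F] [Algebra K F] (t : Fin n → F) (P : Bp A F), t ≠ 0 →
      (∀ i, ev (g i) (fl t P) = 0) → ev G (vc P) = 0 →
      (∀ i, ev (f i) (fl t P) = 0) ∨ ∀ i, ev (f' i) (fl t P) = 0) :
    ∃ η : ℝ, 0 < η ∧ ∀ (m C1 : ℝ), 0 ≤ m → ∀ 𝒮 : Cnd A, Adm A 𝒮 →
    ∃ (C c : ℝ) (κ : ℕ), 1 ≤ c ∧ 0 ≤ C ∧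
      (∀ (L : Type) [Field L] [NumberField L] [Algebra K L] (φ : L →ₐ[K] AlgebraicClosure K)
        (S : Pls L) (Γ : AddSubgroup (Bp A L)), Γ.FG →
        ∀ T : ℝ, 1 ≤ T → ∃ (H : MvPolynomial (Fin β × Fin n) L) (σ : Fin β → ℕ), MH σ H ∧
          (∀ b, (σ b : ℝ) ≤ c ^ (1 + Module.finrank ℤ Γ) * (1 + Real.log T)) ∧ NZ1 A L H ∧
          (∀ P ∈ Γ, C * Module.finrank ℚ L < htL P → htL P ≤ T * Module.finrank ℚ L →
            𝒮 L S P → IntX g f δ f' δ' m η C1 S P → ev H (vc P) = 0) ∧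
          ∃ Z : Finset (Bp A L), (∀ z ∈ Z, z ∈ Γ) ∧
            (Z.card : ℝ) ≤ (c ^ (1 + Module.finrank ℤ Γ) * (1 + Real.log T)) ^ κ ∧
            ∀ P ∈ Γ, C * Module.finrank ℚ L < htL P → htL P ≤ T * Module.finrank ℚ L →
              𝒮 L S P → IntX g f δ f' δ' m η C1 S P → ¬ Ueno (mpc φ H) (bcB φ P) →
              ∃ z ∈ Z, htL (P - z) ≤ C * Module.finrank ℚ L) := by
  classical
  obtain ⟨N, C', hN, hC', hbd⟩ := htBound A E1 E2 E3 g hg f δ hf f' δ' hf' G σ0 hσ0 hσ1 hG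
  obtain ⟨C2, hC2, hlow⟩ := part_lower f δ hf
  have hNR : (0 : ℝ) < N := by exact_mod_cast hN
  refine ⟨1 / (2 * N), by positivity, fun m C1 hm 𝒮 h𝒮 => ?_⟩
  set ε : ℝ := 1 / (4 * N * (m + 1)) with hε
  have hε0 : 0 < ε := by positivity
  obtain ⟨C0, c, κ, hc, hC0, hmain⟩ := vojX A hA E1 E2 E3 g hg f δ hf f' δ' hf' hcod hcod' ε hε0
    𝒮 h𝒮
  set C3 : ℝ := 4 * N * ((m + 1) * C0 + m * C2 + |C1| + C' / N) with hC3
  have hC30 : 0 ≤ C3 := by positivity
  refine ⟨max C0 C3, c, κ, hc, hC0.trans (le_max_left _ _), fun L _ _ _ φ S Γ hΓ T hT => ?_⟩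
  set dL : ℝ := (Module.finrank ℚ L : ℝ) with hdL
  have hdL0 : 0 < dL := Nat.cast_pos.2 Module.finrank_pos
  obtain ⟨H, σ, a1, a2, a3, a4, Z, a5, a6, a7⟩ := hmain C0 le_rfl L φ S Γ hΓ T hT
  have key : ∀ P : Bp A L, max C0 C3 * dL < htL P → IntX g f δ f' δ' m (1 / (2 * N)) C1 S P →
      ExV g f δ f' δ' ε C0 S P := by
    rintro P hP ⟨t, ht, h1, h2, h3⟩
    refine ⟨t, ht, h1, ?_⟩
    by_cases hW : ∀ i, ev (f' i) (fl t P) = 0
    · exact Or.inr (Or.inl hW)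
    refine Or.inr (Or.inr ?_)
    have hful : ∀ o, fl t P o ≠ 0 := by
      intro o
      cases o with
      | none => exact ht
      | some b => exact (P b).2.1.ne_zero
    have h4 := hbd L t P ht h1 h2 hW
    have h5 := hlow L S (fl t P) hful h2
    set tD := tot (fun w : AbsoluteValue L ℝ => -Real.log (⨆ i, nvW w (δ i) (f i) (fl t P)))
    set pD := part S (fun w : AbsoluteValue L ℝ => -Real.log (⨆ i, nvW w (δ i) (f i) (fl t P)))
    set tW := tot (fun w : AbsoluteValue L ℝ => -Real.log (⨆ i, nvW w (δ' i) (f' i) (fl t P)))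
    by_contra hcon
    push Not at hcon
    have hC3P : C3 * dL < htL P :=
      lt_of_le_of_lt (mul_le_mul_of_nonneg_right (le_max_right _ _) hdL0.le) hP
    have h6 : htL P ≤ N * (pD + (m + 1) * tW + 1 / (2 * N) * htL P + C1 * dL) + C' * dL := by
      have h7 : tD + tW ≤ pD + (m + 1) * tW + 1 / (2 * N) * htL P + C1 * dL := by linarith
      have h8 := mul_le_mul_of_nonneg_left h7 hNR.le
      linarith
    have h7 : pD + (m + 1) * tW ≤ (m + 1) * (ε * htL P + C0 * dL) + m * (C2 * dL) := by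
      have h8 : pD + (m + 1) * tW = (m + 1) * (pD + tW) + m * (-pD) := by ring
      rw [h8]
      have h9 := mul_le_mul_of_nonneg_left hcon (by linarith : 0 ≤ m + 1)
      have h10 := mul_le_mul_of_nonneg_left (by linarith : -pD ≤ C2 * dL) hm
      linarith
    have h8 : (N : ℝ) * (1 / (2 * N) * htL P) = htL P / 2 := by
      field_simp
    have h9 : (N : ℝ) * ((m + 1) * (ε * htL P)) = htL P / 4 := by
      rw [hε]
      have : m + 1 ≠ 0 := by linarith
      field_simp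
    have h10 : C1 * dL ≤ |C1| * dL := mul_le_mul_of_nonneg_right (le_abs_self _) hdL0.le
    have h11 : htL P ≤ htL P / 4 + N * ((m + 1) * (C0 * dL)) + N * (m * (C2 * dL)) + htL P / 2 +
        N * (|C1| * dL) + C' * dL := by
      have h12 := mul_le_mul_of_nonneg_left h7 hNR.le
      have h13 := mul_le_mul_of_nonneg_left h10 hNR.le
      nlinarith
    have h14 : C3 * dL = 4 * (N * ((m + 1) * (C0 * dL)) + N * (m * (C2 * dL)) +
        N * (|C1| * dL) + C' * dL) := by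
      rw [hC3]
      field_simp
    linarith
  refine ⟨H, σ, a1, a2, a3, fun P hP hPC hPT hS hI => a4 P hP hPT hS (key P hPC hI), Z, a5, a6,
    fun P hP hPC hPT hS hI hU => ?_⟩
  obtain ⟨z, hz, hz'⟩ := a7 P hP hPT hS (key P hPC hI) hU
  exact ⟨z, hz, hz'.trans (mul_le_mul_of_nonneg_right (le_max_left _ _) hdL0.le)⟩

end Pool.Agent.H14.DV
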