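import Pool.Agent.H14.DV.Near

/-!
# The local theorem for a proper closed subset and few places
-/

set_option autoImplicit false
set_option linter.unusedSectionVars false

open MvPolynomial Pool.Agent.TH954.X Pool.Agent.TH954.V Pool.Agent.TH954.Z Pool.Agent.H14.LB
open NumberField

namespace Pool.Agent.H14.DV

variable {K : Type} [Field K] [NumberField K] {n β : ℕ}

/-- the points `P` of `B(L)` over which there is a point of `X(L)` on `D` or near `D` at the places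
of `S` -/
def ExcSX {A : Fin β → AbV K n} {E1 E2 : Type} (g : E1 → MvPolynomial (Option (Fin β) × Fin n) K)
    (f : E2 → MvPolynomial (Option (Fin β) × Fin n) K) (δ : E2 → Option (Fin β) → ℕ)
    (ε C : ℝ) {L : Type} [Field L] [NumberField L] [Algebra K L] (S : Pls L) (P : Bp A L) : Prop :=
  ∃ t : Fin n → L, t ≠ 0 ∧ (∀ i, ev (g i) (fl t P) = 0) ∧ ((∀ i, ev (f i) (fl t P) = 0) ∨
    ε * htL P + C * Module.finrank ℚ L <
      part S (fun w : AbsoluteValue L ℝ => -Real.log (⨆ i, nvW w (δ i) (f i) (fl t P))))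

/-- The reduction to closed subsets of `B`. -/
theorem redExcS (A : Fin β → AbV K n) (E1 E2 : Type) [Fintype E1] [Fintype E2]
    (g : E1 → MvPolynomial (Option (Fin β) × Fin n) K) (hg : ∀ i, ∃ γ, MH γ (g i))
    (f : E2 → MvPolynomial (Option (Fin β) × Fin n) K) (δ : E2 → Option (Fin β) → ℕ)
    (hf : ∀ i, MH (δ i) (f i)) (c : ℕ)
    (hcod : ∀ (F : Type) [Field F] [Algebra K F] (t : Fin n → F) (P : Bp A F), t ≠ 0 →
      (∀ i, ev (g i) (fl t P) = 0) → (∀ i, ev (f i) (fl t P) = 0) →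
      td (K := K) (vc P) + (c : Cardinal) ≤ ((∑ b, (A b).dim : ℕ) : Cardinal)) :
    ∃ (s : ℕ) (h : Fin s → MvPolynomial (Fin β × Fin n) K) (η : Fin s → Fin β → ℕ),
      (∀ i, MH (η i) (h i)) ∧ CodimB A h c ∧
      ∃ (N : ℕ) (C' : ℝ), 0 < N ∧ 0 ≤ C' ∧ ∀ (ε C : ℝ) (L : Type) [Field L] [NumberField L]
        [Algebra K L] (S : Pls L) (P : Bp A L), ExcSX g f δ ε C S P →
          ExcS η h (ε / N) ((C - C') / N) S (htL P) P := by
  obtain ⟨s, h, η, hη, hcd, N, M, A0, hN, hM, hl⟩ := redL K n β A E1 E2 g hg f δ hf c hcod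
  obtain ⟨ck, hck0, hck⟩ := tot_kap A0 hM 1
  refine ⟨s, h, η, hη, hcd, N, ck, hN, hck0, fun ε C L _ _ _ S P hP => ?_⟩
  have hNR : (0 : ℝ) < N := by exact_mod_cast hN
  obtain ⟨t, ht0, hgt, hbad⟩ := hP
  by_cases hall : ∀ i, ev (h i) (vc P) = 0
  · exact Or.inl hall
  right
  push Not at hall
  obtain ⟨i0, hi0⟩ := hall
  have hu0 : ∀ b, vc P b ≠ 0 := fun b => (P b).2.1.ne_zero
  have hpos : ∀ w : AbsoluteValue L ℝ, 0 < ⨆ i, nvW w (η i) (h i) (vc P) := by
    intro w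
    have h1 := Pool.Agent.TH954.Y.sup_nvW_pos w η (fun i => mp L (h i)) hu0
      ⟨i0, by rw [ev_mp]; exact hi0⟩
    simpa only [nvW_mp] using h1
  have hk : ∀ w : AbsoluteValue L ℝ, 0 < kap A0 M 1 w := fun w =>
    zero_lt_one.trans_le (one_le_kap A0 hM 1 w)
  have hpos2 : ∀ w : AbsoluteValue L ℝ, 0 < ⨆ i, nvW w (δ i) (f i) (fl t P) := by
    intro w
    by_contra hcon
    have h4 := mul_nonpos_of_nonneg_of_nonpos (hk w).le (not_lt.mp hcon)
    have h5 := pow_pos (hpos w) N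
    have := hl L w t P ht0 hgt
    linarith
  have hcmp : ∀ w : AbsoluteValue L ℝ, -Real.log (⨆ i, nvW w (δ i) (f i) (fl t P)) ≤
      N * lamL L η h (vc P) w + Real.log (kap A0 M 1 w) := by
    intro w
    have h1 := Real.log_le_log (pow_pos (hpos w) N) (hl L w t P ht0 hgt)
    rw [Real.log_pow, Real.log_mul (hk w).ne' (hpos2 w).ne'] at h1
    have h2 : (N : ℝ) * -Real.log (⨆ i, nvW w (η i) (h i) (vc P)) ≤ N * lamL L η h (vc P) w :=
      mul_le_mul_of_nonneg_left (le_max_right _ _) hNR.le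
    linarith
  have hne : ∃ i, ev (f i) (fl t P) ≠ 0 := by
    have w1 : AbsoluteValue L ℝ := ai (Classical.arbitrary (InfinitePlace L))
    have h1 : 0 < ⨆ i, nvW w1 (δ i) (mp L (f i)) (fl t P) := by
      simp only [nvW_mp]
      exact hpos2 w1
    obtain ⟨i, hi⟩ := Pool.Agent.TH954.Y.exists_of_sup_pos w1 δ (fun i => mp L (f i)) h1
    exact ⟨i, by rwa [ev_mp] at hi⟩
  rcases hbad with hb | hb
  · obtain ⟨i, hi⟩ := hne
    exact absurd (hb i) hi
  have htot := part_mono S hcmp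
  rw [part_add, part_mul] at htot
  have h3 : part S (fun w : AbsoluteValue L ℝ => Real.log (kap A0 M 1 w)) ≤
      ck * Module.finrank ℚ L :=
    (part_le_tot S (fun w => Real.log_nonneg (one_le_kap A0 hM 1 w)) (hck L).1).trans (hck L).2
  have h4 : ε * htL P + (C - ck) * Module.finrank ℚ L < N * part S (lamL L η h (vc P)) := by
    linarith
  have h5 : ε / N * htL P + (C - ck) / N * Module.finrank ℚ L =
      (ε * htL P + (C - ck) * Module.finrank ℚ L) / N := by ring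
  rw [h5, div_lt_iff₀ hNR]
  linarith

/-- the points near each point which have a property lie on a hypersurface of bounded degree -/
def LocSt (A : Fin β → AbV K n) (D : ℕ) (δ0 : ℝ) (L : Type) [Field L] [NumberField L] [Algebra K L]
    (Ex : Bp A L → Prop) : Prop :=
  ∀ P0 : Bp A L, ∃ (H : MvPolynomial (Fin β × Fin n) L) (σ : Fin β → ℕ), MH σ H ∧
    (∀ b, σ b ≤ D) ∧ NZ1 A L H ∧
    ∀ y : Bp A L, htL (y - P0) ≤ δ0 * htL P0 → Ex y → ev H (vc y) = 0

lemma LocSt.anti {A : Fin β → AbV K n} {D : ℕ} {δ0 δ1 : ℝ} {L : Type} [Field L] [NumberField L]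
    [Algebra K L] {Ex Ex' : Bp A L → Prop} (h : LocSt A D δ0 L Ex) (hδ : δ1 ≤ δ0)
    (hE : ∀ y, Ex' y → Ex y) : LocSt A D δ1 L Ex' := by
  intro P0
  obtain ⟨H, σ, h1, h2, h3, h4⟩ := h P0
  exact ⟨H, σ, h1, h2, h3, fun y hy hyE =>
    h4 y (hy.trans (mul_le_mul_of_nonneg_right hδ (htL_nonneg _))) (hE y hyE)⟩

lemma LocSt.or {A : Fin β → AbV K n} {D D' : ℕ} {δ0 : ℝ} {L : Type} [Field L] [NumberField L]
    [Algebra K L] {Ex Ex' : Bp A L → Prop} (h : LocSt A D δ0 L Ex) (h' : LocSt A D' δ0 L Ex') :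
    LocSt A (D + D') δ0 L (fun y => Ex y ∨ Ex' y) := by
  intro P0
  obtain ⟨H, σ, h1, h2, h3, h4⟩ := h P0
  obtain ⟨H', σ', h1', h2', h3', h4'⟩ := h' P0
  refine ⟨H * H', _, MH_mul h1 h1', fun b => add_le_add (h2 b) (h2' b),
    NZ1_mul A L h1 h1' h3 h3', fun y hy hyE => ?_⟩
  have e : ev (H * H') (vc y) = ev H (vc y) * ev H' (vc y) := by simp only [ev, map_mul]
  rw [e]
  rcases hyE with hyE | hyE
  · rw [h4 y hy hyE, zero_mul]
  · rw [h4' y hy hyE, mul_zero]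

/-- **The local theorem for points near `D` at few places.** -/
theorem locD (A : Fin β → AbV K n) (E1 E2 : Type) [Fintype E1] [Fintype E2]
    (g : E1 → MvPolynomial (Option (Fin β) × Fin n) K) (hg : ∀ i, ∃ γ, MH γ (g i))
    (f : E2 → MvPolynomial (Option (Fin β) × Fin n) K) (δ : E2 → Option (Fin β) → ℕ)
    (hf : ∀ i, MH (δ i) (f i))
    (hcod : ∀ (F : Type) [Field F] [Algebra K F] (t : Fin n → F) (P : Bp A F), t ≠ 0 →
      (∀ i, ev (g i) (fl t P) = 0) → (∀ i, ev (f i) (fl t P) = 0) →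
      td (K := K) (vc P) + ((1 : ℕ) : Cardinal) ≤ ((∑ b, (A b).dim : ℕ) : Cardinal))
    (ε : ℝ) (hε : 0 < ε) (𝒮 : Cnd A) (h𝒮 : Adm A 𝒮) :
    ∃ (D : ℕ) (δ0 C : ℝ), 0 < δ0 ∧ δ0 ≤ 1 / 4 ∧ 0 ≤ C ∧
      ∀ (L : Type) [Field L] [NumberField L] [Algebra K L] (S : Pls L),
        LocSt A D δ0 L (fun P => 𝒮 L S P ∧ ExcSX g f δ ε C S P) := by
  obtain ⟨s', h, η, hη, hcd, N, C', hN, hC', hred⟩ := redExcS A E1 E2 g hg f δ hf 1 hcod
  have hNR : (0 : ℝ) < N := by exact_mod_cast hN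
  obtain ⟨C1, hC1, hadd⟩ := htL_add A
  obtain ⟨m, Ψ, τ, hτ, hNZ, δ0, C, hδ0, hδ1, hC, hmain⟩ := nearD A (Fin s') h η hη hcd
    (ε / N / 4) (by positivity) 𝒮 h𝒮
  refine ⟨(∑ p, τ p) * 2, δ0, N * (C + ε / N * C1) + C', hδ0, hδ1, by positivity,
    fun L _ _ _ S P0 => ?_⟩
  set dL : ℝ := (Module.finrank ℚ L : ℝ) with hdL
  have hdL0 : 0 ≤ dL := Nat.cast_nonneg _
  have hh0 : 0 ≤ htL P0 := htL_nonneg P0
  obtain ⟨H, σ, h1, h2, h3, h4⟩ := selShift {y : Bp A L | htL (y - P0) ≤ δ0 * htL P0 ∧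
    𝒮 L S y ∧ ExcSX g f δ ε (N * (C + ε / N * C1) + C') S y} m Ψ τ hτ hNZ (∑ p, τ p)
    (fun p => Finset.single_le_sum (f := τ) (fun _ _ => Nat.zero_le _) (Finset.mem_univ p))
    (fun Q h0 hQ => by
      refine hmain L S P0 Q h0.1 (fun k => (hQ k).1) (fun k => (hQ k).2.1) (fun k => ?_)
      obtain ⟨h1, -, h2⟩ := hQ k
      have h3 := hred _ _ L S _ h2
      rcases h3 with h3 | h3
      · exact Or.inl h3
      · right
        refine lt_of_le_of_lt ?_ h3
        have h4 := (hadd L (Q 0 + Q k.succ) (Q 0 + Q k.succ - P0)).1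
        rw [sub_sub_cancel] at h4
        have h5 : htL P0 ≤ 4 * htL (Q 0 + Q k.succ) + 2 * C1 * dL := by
          refine near_ht hδ1 hh0 ?_
          refine h4.trans ?_
          have := mul_le_mul_of_nonneg_left h1 (by norm_num : (0 : ℝ) ≤ 2)
          linarith
        have h6 : 0 ≤ ε / N := by positivity
        have h7 := mul_le_mul_of_nonneg_left h5 (by positivity : 0 ≤ ε / N / 4)
        have h8 : (N * (C + ε / N * C1) + C' - C') / N = C + ε / N * C1 := by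
          field_simp
          ring
        rw [h8]
        have h9 : 0 ≤ ε / N * C1 * dL := by positivity
        nlinarith)
  exact ⟨H, σ, h1, h2, h3, fun y hy hyE => h4 y ⟨hy, hyE⟩⟩

lemma ExcSX_mono {A : Fin β → AbV K n} {E1 E2 : Type}
    (g : E1 → MvPolynomial (Option (Fin β) × Fin n) K)
    (f : E2 → MvPolynomial (Option (Fin β) × Fin n) K) (δ : E2 → Option (Fin β) → ℕ)
    {ε C C' : ℝ} (hC : C' ≤ C) {L : Type} [Field L] [NumberField L] [Algebra K L] {S : Pls L}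
    {P : Bp A L} (h : ExcSX g f δ ε C S P) : ExcSX g f δ ε C' S P := by
  obtain ⟨t, h1, h2, h3⟩ := h
  refine ⟨t, h1, h2, h3.imp id (fun h4 => lt_of_le_of_lt ?_ h4)⟩
  have h5 : (0 : ℝ) ≤ (Module.finrank ℚ L : ℝ) := Nat.cast_nonneg _
  have h6 := mul_le_mul_of_nonneg_right hC h5
  linarith

/-- a closed subset of positive codimension lies on a hypersurface -/
lemma exists_NZ' (A : Fin β → AbV K n) {E : Type} (h : E → MvPolynomial (Fin β × Fin n) K)
    (hc : CodimB A h 1) : ∃ i, NZ A (h i) := by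
  obtain ⟨Ω, iΩ, iA, P, h1, h2⟩ := HypL.genB A
  by_contra hcon
  push Not at hcon
  have h3 : ∀ i, ev (h i) (vc P) = 0 := by
    intro i
    by_contra h4
    exact hcon i ⟨Ω, iΩ, iA, P, h4⟩
  have h4 := hc Ω P h3
  have h5 : ((∑ b, (A b).dim : ℕ) : Cardinal) ≤ td (K := K) (vc P) := by
    set E := IntermediateField.adjoin K
        (Set.range (fun p : Fin β × Fin n => vc P p.1 p.2)) with hE
    let v : ((i : Fin β) × Fin (A i).dim) → E := fun p =>
      ⟨(P p.1).1 ((A p.1).z p.2) / (P p.1).1 (A p.1).z0, div_mem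
        (IntermediateField.subset_adjoin K _ ⟨(p.1, (A p.1).z p.2), rfl⟩)
        (IntermediateField.subset_adjoin K _ ⟨(p.1, (A p.1).z0), rfl⟩)⟩
    have h6 : AlgebraicIndependent K v :=
      (AlgHom.algebraicIndependent_iff E.val E.val.injective).1 h2
    have h7 := h6.cardinalMk_le_trdeg
    rw [Cardinal.mk_fintype, Fintype.card_sigma] at h7
    simp only [Fintype.card_fin] at h7
    exact h7
  have h6 : ((∑ b, (A b).dim : ℕ) : Cardinal) + ((1 : ℕ) : Cardinal) ≤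
      ((∑ b, (A b).dim : ℕ) : Cardinal) := (add_le_add h5 le_rfl).trans h4
  have h7 : (∑ b, (A b).dim) + 1 ≤ ∑ b, (A b).dim := by exact_mod_cast h6
  omega

/-- the exceptional points of small height lie on a fixed hypersurface -/
theorem smallD (A : Fin β → AbV K n) (E1 E2 : Type) [Fintype E1] [Fintype E2]
    (g : E1 → MvPolynomial (Option (Fin β) × Fin n) K) (hg : ∀ i, ∃ γ, MH γ (g i))
    (f : E2 → MvPolynomial (Option (Fin β) × Fin n) K) (δ : E2 → Option (Fin β) → ℕ)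
    (hf : ∀ i, MH (δ i) (f i))
    (hcod : ∀ (F : Type) [Field F] [Algebra K F] (t : Fin n → F) (P : Bp A F), t ≠ 0 →
      (∀ i, ev (g i) (fl t P) = 0) → (∀ i, ev (f i) (fl t P) = 0) →
      td (K := K) (vc P) + ((1 : ℕ) : Cardinal) ≤ ((∑ b, (A b).dim : ℕ) : Cardinal))
    (ε : ℝ) (hε : 0 < ε) (c0 : ℝ) :
    ∃ (h0 : MvPolynomial (Fin β × Fin n) K) (η : Fin β → ℕ) (C : ℝ), MH η h0 ∧ NZ A h0 ∧
      ∀ (L : Type) [Field L] [NumberField L] [Algebra K L] (S : Pls L) (P : Bp A L),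
        htL P ≤ c0 * Module.finrank ℚ L → ExcSX g f δ ε C S P → ev (mp L h0) (vc P) = 0 := by
  obtain ⟨s, h, η, hη, hcd, N, C', hN, hC', hred⟩ := redExcS A E1 E2 g hg f δ hf 1 hcod
  obtain ⟨l0, hl0⟩ := exists_NZ' A h hcd
  obtain ⟨A1, A2, hA1, hA2, hfam⟩ := tot_fam_le A h η hη
  have hNR : (0 : ℝ) < N := by exact_mod_cast hN
  refine ⟨h l0, η l0, C' + N * (A1 * c0 + A2), hη l0, hl0, fun L _ _ _ S P hP hE => ?_⟩
  rw [ev_mp]
  rcases hred _ _ L S P hE with h1 | h1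
  · exact h1 l0
  · by_cases hall : ∀ i, ev (h i) (vc P) = 0
    · exact hall l0
    · exfalso
      have h2 : part S (lamL L η h (vc P)) ≤ A1 * htL P + A2 * Module.finrank ℚ L :=
        (part_le_tot S (g := lamL L η h (vc P)) (fun w => le_max_left _ _)
          (lamL_FS η h hη P)).trans (hfam L P hall)
      have h3 : (C' + N * (A1 * c0 + A2) - C') / N = A1 * c0 + A2 := by
        field_simp
        ring
      rw [h3] at h1
      have h5 : 0 ≤ ε / N * htL P := mul_nonneg (by positivity) (htL_nonneg _)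
      have h6 := mul_le_mul_of_nonneg_left hP hA1
      linarith

end Pool.Agent.H14.DV
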