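import Pool.Agent.H14.DV.Adm

/-!
# Points near a proper closed subset at few places
-/

set_option autoImplicit false
set_option linter.unusedSectionVars false

open MvPolynomial Pool.Agent.TH954.X Pool.Agent.TH954.V Pool.Agent.TH954.Z Pool.Agent.H14.LB
open NumberField

namespace Pool.Agent.H14.DV

variable {K : Type} [Field K] [NumberField K] {n β : ℕ}

/-- the points on `f = 0`, or near `f = 0` at the places of `S` -/
def ExcS {A : Fin β → AbV K n} {E : Type} (δ : E → Fin β → ℕ)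
    (f : E → MvPolynomial (Fin β × Fin n) K) (ε C : ℝ) {L : Type} [Field L] [NumberField L]
    [Algebra K L] (S : Pls L) (R : ℝ) (P : Bp A L) : Prop :=
  (∀ j, ev (f j) (vc P) = 0) ∨ ε * R + C * Module.finrank ℚ L < part S (lamL L δ f (vc P))

/-- **Points near a proper closed subset at few places, and near a given point, are in special
position.** -/
theorem nearD (A : Fin β → AbV K n) (E : Type) [Fintype E]
    (f : E → MvPolynomial (Fin β × Fin n) K) (δ : E → Fin β → ℕ) (hf : ∀ i, MH (δ i) (f i))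
    (hc : CodimB A f 1) (ε : ℝ) (hε : 0 < ε) (𝒮 : Cnd A) (h𝒮 : Adm A 𝒮) :
    ∃ (m : ℕ) (Ψ : MvPolynomial ((Fin (m + 2) × Fin β) × Fin n) K)
      (τ : Fin (m + 2) × Fin β → ℕ), MH τ Ψ ∧ Gen.N (Gp.Cb A (m + 2)) Ψ ∧
      ∃ (δ0 C : ℝ), 0 < δ0 ∧ δ0 ≤ 1 / 4 ∧ 0 ≤ C ∧
        ∀ (L : Type) [Field L] [NumberField L] [Algebra K L] (S : Pls L)
          (P0 : Bp A L) (Q : Fin (m + 2) → Bp A L),
          htL (Q 0 - P0) ≤ δ0 * htL P0 →
          (∀ k : Fin (m + 1), htL (Q 0 + Q k.succ - P0) ≤ δ0 * htL P0) →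
          (∀ k : Fin (m + 1), 𝒮 L S (Q 0 + Q k.succ)) →
          (∀ k : Fin (m + 1), ExcS δ f ε C S (htL P0) (Q 0 + Q k.succ)) →
          ev Ψ (vcT Q) = 0 := by
  classical
  obtain ⟨d, Φ, τ0, hτ0, hΦ, N, M0, e0, A0, hM0, hgp⟩ := gpL K n β A E f δ hf hc
  obtain ⟨cz, hcz0, hcz⟩ := tot_lamL_le Φ τ0 hτ0
  obtain ⟨A1, A2, hA1, hA2, hadm⟩ := h𝒮 E f δ hf
  obtain ⟨C1, hC1, hadd⟩ := htL_add A
  obtain ⟨ck, hck0, hck⟩ := tot_kap A0 hM0 e0
  obtain ⟨m0, hm0⟩ := exists_nat_gt (8 * (d * A1) / ε)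
  obtain ⟨m, hm⟩ : ∃ m : ℕ, m = m0 + d := ⟨_, rfl⟩
  have hm1 : d * (4 * A1) ≤ ε / 2 * ((m : ℝ) + 1 - d) := by
    rw [div_lt_iff₀ hε] at hm0
    rw [hm]
    push_cast
    nlinarith
  -- the form
  set ρ : (Fin (d + 1) ↪ Fin (m + 1)) → (Fin (d + 1) ↪ Fin (m + 2)) := fun e =>
    ⟨fun j => (e j).succ, fun a b h => e.injective (Fin.succ_injective _ h)⟩ with hρ
  set Φe : (Fin (d + 1) ↪ Fin (m + 1)) → MvPolynomial ((Fin (m + 2) × Fin β) × Fin n) K :=
    fun e => Gp.rn (fun p : Fin (d + 1) × Fin β => (ρ e p.1, p.2)) Φ with hΦe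
  have hinj : ∀ e, Function.Injective (fun p : Fin (d + 1) × Fin β => (ρ e p.1, p.2)) := by
    intro e p p' h
    exact Prod.ext ((ρ e).injective (Prod.ext_iff.1 h).1) (Prod.ext_iff.1 h).2
  have hΦeMH : ∀ e, ∃ τ, MH τ (Φe e) := fun e => ⟨_, Gp.rn_MH _ (hinj e) hτ0⟩
  obtain ⟨⟨τ1, hτ1⟩, hN1⟩ := Gen.N_prod (Gp.Cb A (m + 2)) (Gp.irr_Cb A _)
    (Gen.N_z0 (Gp.Cb A (m + 2)) (Gp.ind_Cb A _)).2 Finset.univ Φe (fun e _ => hΦeMH e)
    (fun e _ => N_rn A (ρ e) Φ hΦ)
  set Ne : ℕ := Fintype.card (Fin (d + 1) ↪ Fin (m + 1)) with hNe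
  set Dτ : ℕ := ∑ p, τ0 p with hDτ
  set D2 : ℝ := Ne * (N * Dτ) * (m + 1) with hD2
  have hD20 : 0 ≤ D2 := by positivity
  set δ0 : ℝ := min (1 / 4) (ε / (8 * (D2 + 1))) with hδ0
  have hδpos : 0 < δ0 := lt_min (by norm_num) (by positivity)
  have hδ1 : δ0 ≤ 1 / 4 := min_le_left _ _
  have hδ2 : D2 * (4 * δ0) ≤ ε / 2 := by
    have h1 : δ0 ≤ ε / (8 * (D2 + 1)) := min_le_right _ _
    rw [le_div_iff₀ (by positivity)] at h1
    nlinarith
  refine ⟨m, ∏ e, Φe e, τ1, hτ1, hN1, δ0,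
    d * (A1 * C1 + A2) + D2 * C1 + Ne * (N * cz + ck) + 1, hδpos, hδ1, by positivity, ?_⟩
  intro L _ _ _ S P0 Q h0 hk hSk hE
  by_contra hQ
  set dL : ℝ := (Module.finrank ℚ L : ℝ) with hdL
  have hdL0 : 0 < dL := Nat.cast_pos.2 Module.finrank_pos
  set h : ℝ := htL P0 with hh
  have hh0 : 0 ≤ h := htL_nonneg P0
  have hev : ev (∏ e, Φe e) (vcT Q) = ∏ e, ev (Φe e) (vcT Q) := by
    simp only [ev, map_prod]
  rw [hev] at hQ
  have hΦQ : ∀ e : Fin (d + 1) ↪ Fin (m + 1), ev Φ (vcT (fun j => Q (e j).succ)) ≠ 0 := by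
    intro e
    have h1 := Finset.prod_ne_zero_iff.1 hQ e (Finset.mem_univ e)
    rw [hΦe] at h1
    simp only [Gp.ev_rn] at h1
    exact h1
  have w1 : AbsoluteValue L ℝ := ai (Classical.arbitrary (InfinitePlace L))
  set y : Fin (m + 1) → Bp A L := fun k => Q 0 + Q k.succ with hy
  -- the heights
  have hQk : ∀ k : Fin (m + 1), htL (Q k.succ) ≤ 4 * δ0 * h + C1 * dL := by
    intro k
    have h1 := (hadd L (Q 0 + Q k.succ - P0) (Q 0 - P0)).1
    have h2 : Q 0 + Q k.succ - P0 - (Q 0 - P0) = Q k.succ := by abel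
    rw [h2] at h1
    have := hk k
    linarith
  have hyk : ∀ k : Fin (m + 1), htL (y k) ≤ 4 * h + C1 * dL := by
    intro k
    have h1 := (hadd L (Q 0 + Q k.succ - P0) P0).2
    rw [sub_add_cancel] at h1
    have := hk k
    change htL (Q 0 + Q k.succ) ≤ _
    nlinarith
  set S1 : ℝ := ∑ k : Fin (m + 1), htL (Q k.succ) with hS1
  have hsum : S1 ≤ (m + 1) * (4 * δ0 * h + C1 * dL) := by
    refine (Finset.sum_le_sum (fun k _ => hQk k)).trans (le_of_eq ?_)
    rw [Finset.sum_const, Finset.card_univ, Fintype.card_fin, nsmul_eq_mul]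
    push_cast
    ring
  -- the local heights
  set x : Fin (m + 1) → AbsoluteValue L ℝ → ℝ := fun k => lamL L δ f (vc (y k)) with hx
  have hxF : ∀ k, FS (x k) := fun k => lamL_FS δ f hf (y k)
  have hx0 : ∀ k w, 0 ≤ x k w := fun k w => le_max_left _ _
  set Bd : ℝ := A1 * (4 * h + C1 * dL) + A2 * dL with hBd
  have hBd0 : 0 ≤ Bd := by positivity
  -- few points are on the closed subset
  set T1 : Finset (Fin (m + 1)) := Finset.univ.filter (fun k => ∀ j, ev (f j) (vc (y k)) = 0)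
    with hT1
  have hT1c : T1.card ≤ d := by
    by_contra hcon
    obtain ⟨T, hT, hTc⟩ := Finset.exists_subset_card_eq (n := d + 1) (s := T1) (by omega)
    let e : Fin (d + 1) ↪ Fin (m + 1) := (T.orderEmbOfFin hTc).toEmbedding
    have heT : ∀ j, ∀ i, ev (f i) (vc (y (e j))) = 0 := fun j =>
      (Finset.mem_filter.1 (hT (Finset.orderEmbOfFin_mem T hTc j))).2
    have h1 := hgp L w1 (Q 0) (fun j => Q (e j).succ)
    have h2 : (⨆ p : Fin (d + 1) × E, nvW w1 (δ p.2) (f p.2) (vc (Q 0 + Q (e p.1).succ))) = 0 := by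
      have h3 : (fun p : Fin (d + 1) × E => nvW w1 (δ p.2) (f p.2) (vc (Q 0 + Q (e p.1).succ))) =
          fun _ => 0 := by
        funext p
        unfold nvW
        rw [heT p.1 p.2, map_zero, zero_div]
      rw [iSup, h3]
      rcases isEmpty_or_nonempty (Fin (d + 1) × E) with he | he
      · exact Real.iSup_of_isEmpty (fun _ : Fin (d + 1) × E => (0 : ℝ))
      · exact ciSup_const
    rw [h2, mul_zero] at h1
    have hne3 : ev (mp L Φ) (vcT (fun j => Q (e j).succ)) ≠ 0 := by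
      rw [ev_mp]
      exact hΦQ e
    have h4 : 0 < nvW w1 τ0 Φ (vcT (fun j => Q (e j).succ)) := by
      have := Pool.Agent.TH954.Y.nvW_pos w1 τ0 (mp L Φ)
        (fun p => (Q (e p.1).succ p.2).2.1.ne_zero) hne3
      rwa [nvW_mp] at this
    have h5 := pow_pos h4 N
    linarith
  -- the tuples
  set z : (Fin (d + 1) ↪ Fin (m + 1)) → AbsoluteValue L ℝ → ℝ := fun e =>
    lamL L (fun _ : Unit => τ0) (fun _ => Φ) (vcT (fun j => Q (e j).succ)) with hz
  have hzF : ∀ e, FS (z e) ∧ tot (z e) ≤ Dτ * S1 + cz * dL := by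
    intro e
    obtain ⟨h1, h2⟩ := hcz L (vcT (fun j => Q (e j).succ))
      (fun p => (Q (e p.1).succ p.2).2.1.ne_zero) (hΦQ e)
    refine ⟨h1, h2.trans ?_⟩
    have h3 : ∑ p, (τ0 p : ℝ) * Height.logHeight (vcT (fun j => Q (e j).succ) p) ≤ Dτ * S1 := by
      rw [hDτ]
      push_cast
      rw [Finset.sum_mul]
      refine Finset.sum_le_sum (fun p _ => mul_le_mul_of_nonneg_left ?_ (Nat.cast_nonneg _))
      have h4 : Height.logHeight (vcT (fun j => Q (e j).succ) p) ≤ htL (Q (e p.1).succ) :=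
        Finset.single_le_sum (f := fun b => Height.logHeight (vc (Q (e p.1).succ) b))
          (fun _ _ => Height.logHeight_nonneg _) (Finset.mem_univ p.2)
      refine h4.trans ?_
      exact Finset.single_le_sum (f := fun k : Fin (m + 1) => htL (Q k.succ))
        (fun _ _ => htL_nonneg _) (Finset.mem_univ (e p.1))
    linarith
  have hFe0 : ∀ (e : Fin (d + 1) ↪ Fin (m + 1)) (w : AbsoluteValue L ℝ),
      0 ≤ (N : ℝ) * z e w + Real.log (kap A0 M0 e0 w) := by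
    intro e w
    have h10 := Real.log_nonneg (one_le_kap A0 hM0 e0 w)
    have h11 : 0 ≤ (N : ℝ) * z e w := mul_nonneg (Nat.cast_nonneg _) (le_max_left _ _)
    linarith
  have htup : ∀ (e : Fin (d + 1) ↪ Fin (m + 1)) (w : AbsoluteValue L ℝ),
      (⨅ j, x (e j) w) ≤ (N : ℝ) * z e w + Real.log (kap A0 M0 e0 w) := by
    intro e w
    by_cases hbad : ∃ j, ∀ i, ev (f i) (vc (y (e j))) = 0
    · obtain ⟨j, hj⟩ := hbad
      refine (ciInf_le (f := fun i => x (e i) w) (Set.finite_range _).bddBelow j).trans ?_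
      change lamL L δ f (vc (y (e j))) w ≤ _
      rw [lamL_zero δ f _ hj w]
      exact hFe0 e w
    push Not at hbad
    have hk1 : 1 ≤ kap A0 M0 e0 w := one_le_kap A0 hM0 e0 w
    have h1 := hgp L w (Q 0) (fun j => Q (e j).succ)
    obtain ⟨jE, -⟩ := hbad 0
    have hne2 : Nonempty (Fin (d + 1) × E) := ⟨(0, jE)⟩
    obtain ⟨p0, hp0⟩ := Finite.exists_max
      (fun p : Fin (d + 1) × E => nvW w (δ p.2) (f p.2) (vc (y (e p.1))))
    set R : ℝ := ⨆ i, nvW w (δ i) (f i) (vc (y (e p0.1))) with hR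
    have h2 : (⨆ p : Fin (d + 1) × E, nvW w (δ p.2) (f p.2) (vc (y (e p.1)))) ≤ R := by
      refine ciSup_le (fun p => (hp0 p).trans ?_)
      exact le_ciSup (f := fun i => nvW w (δ i) (f i) (vc (y (e p0.1))))
        (Set.finite_range _).bddAbove p0.2
    have hR0 : 0 < R := by
      obtain ⟨j, hj⟩ := hbad p0.1
      have := Pool.Agent.TH954.Y.sup_nvW_pos w δ (fun i => mp L (f i))
        (u := vc (y (e p0.1))) (fun b => (y (e p0.1) b).2.1.ne_zero) ⟨j, by rw [ev_mp]; exact hj⟩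
      simp only [nvW_mp] at this
      exact this
    have h3 := h1.trans (mul_le_mul_of_nonneg_left h2 (zero_le_one.trans hk1))
    have hne3 : ev (mp L Φ) (vcT (fun j => Q (e j).succ)) ≠ 0 := by
      rw [ev_mp]
      exact hΦQ e
    have h4 : 0 < nvW w τ0 Φ (vcT (fun j => Q (e j).succ)) := by
      have := Pool.Agent.TH954.Y.nvW_pos w τ0 (mp L Φ)
        (fun p => (Q (e p.1).succ p.2).2.1.ne_zero) hne3
      rwa [nvW_mp] at this
    have h5 := Real.log_le_log (pow_pos h4 N) h3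
    rw [Real.log_pow, Real.log_mul (zero_lt_one.trans_le hk1).ne' hR0.ne'] at h5
    have h6 : -Real.log (nvW w τ0 Φ (vcT (fun j => Q (e j).succ))) ≤ z e w := by
      have h8 : z e w = max 0 (-Real.log (⨆ _ : Unit,
        nvW w τ0 Φ (vcT (fun j => Q (e j).succ)))) := rfl
      rw [h8, ciSup_const]
      exact le_max_right _ _
    have h7 := mul_le_mul_of_nonneg_left h6 (Nat.cast_nonneg (α := ℝ) N)
    refine (ciInf_le (f := fun i => x (e i) w) (Set.finite_range _).bddBelow p0.1).trans ?_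
    refine max_le (hFe0 e w) ?_
    change -Real.log R ≤ _
    linarith
  have hFe : ∀ e : Fin (d + 1) ↪ Fin (m + 1),
      part S (fun w => (N : ℝ) * z e w + Real.log (kap A0 M0 e0 w)) ≤
        N * (Dτ * S1 + cz * dL) + ck * dL := by
    intro e
    refine (part_le_tot S (hFe0 e) (FS_add (FS_mul (hzF e).1 _) (hck L).1)).trans ?_
    rw [tot_add (FS_mul (hzF e).1 _) (hck L).1, tot_mul (hzF e).1]
    exact add_le_add (mul_le_mul_of_nonneg_left (hzF e).2 (Nat.cast_nonneg _)) (hck L).2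
  have hG0 : ∀ w, 0 ≤ ⨆ i, x i w := fun w => Real.iSup_nonneg (fun i => hx0 i w)
  have hlocal : ∀ w, ∑ i, x i w ≤ (d : ℝ) * (⨆ i, x i w) + ∑ e : Fin (d + 1) ↪ Fin (m + 1),
      ((N : ℝ) * z e w + Real.log (kap A0 M0 e0 w)) := by
    intro w
    refine (Pool.Agent.TH954.Y.comb (m + 1) d (fun i => x i w) (⨆ i, x i w) (hG0 w)
      (fun i => hx0 i w) (fun i => le_ciSup (f := fun i => x i w)
        (Set.finite_range _).bddAbove i)).trans ?_
    exact add_le_add le_rfl (Finset.sum_le_sum (fun e _ => htup e w))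
  have htot := part_mono S hlocal
  rw [part_sum, part_add, part_mul, part_sum] at htot
  have h1 : part S (fun w => ⨆ i, x i w) ≤ Bd := hadm L S m y _ hSk hyk
  have h2 : ∑ e : Fin (d + 1) ↪ Fin (m + 1), part S (fun w =>
      (N : ℝ) * z e w + Real.log (kap A0 M0 e0 w)) ≤
        Ne * (N * (Dτ * S1 + cz * dL) + ck * dL) := by
    refine (Finset.sum_le_sum (fun e _ => hFe e)).trans (le_of_eq ?_)
    rw [Finset.sum_const, nsmul_eq_mul, Finset.card_univ]
  have h3 := mul_le_mul_of_nonneg_left h1 (Nat.cast_nonneg (α := ℝ) d)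
  -- the lower bound
  set C : ℝ := d * (A1 * C1 + A2) + D2 * C1 + Ne * (N * cz + ck) + 1 with hC
  have hC0 : 0 ≤ C := by positivity
  have hlow : ((m : ℝ) + 1 - d) * (ε * h + C * dL) ≤ ∑ k : Fin (m + 1), part S (x k) := by
    have e1 : ∀ k ∈ T1ᶜ, ε * h + C * dL ≤ part S (x k) := by
      intro k hk'
      rcases hE k with h4 | h4
      · exact absurd (Finset.mem_filter.2 ⟨Finset.mem_univ k, h4⟩) (Finset.mem_compl.1 hk')
      · exact h4.le
    have e2 : ∑ k ∈ T1ᶜ, (ε * h + C * dL) ≤ ∑ k ∈ T1ᶜ, part S (x k) := Finset.sum_le_sum e1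
    have e3 : ∑ k ∈ T1ᶜ, part S (x k) ≤ ∑ k : Fin (m + 1), part S (x k) := by
      refine Finset.sum_le_sum_of_subset_of_nonneg (Finset.subset_univ _) (fun k _ _ => ?_)
      have := part_mono S (g := fun _ => 0) (h := x k) (hx0 k)
      rwa [part_zero] at this
    rw [Finset.sum_const, Finset.card_compl, Fintype.card_fin, nsmul_eq_mul] at e2
    refine le_trans ?_ (e2.trans e3)
    refine mul_le_mul_of_nonneg_right ?_ (by positivity)
    rw [Nat.cast_sub (by omega)]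
    push_cast
    have : (T1.card : ℝ) ≤ d := by exact_mod_cast hT1c
    linarith
  -- the contradiction
  have hmd : (1 : ℝ) ≤ (m : ℝ) + 1 - d := by
    rw [hm]
    push_cast
    have : (0 : ℝ) ≤ m0 := Nat.cast_nonneg _
    linarith
  have h4 : (Ne : ℝ) * (N * (Dτ * S1)) ≤ D2 * (4 * δ0) * h + D2 * C1 * dL := by
    have e1 : (Ne : ℝ) * (N * (Dτ * S1)) = Ne * (N * Dτ) * S1 := by ring
    have e2 : (0 : ℝ) ≤ Ne * (N * Dτ) := by positivity
    rw [e1]
    refine (mul_le_mul_of_nonneg_left hsum e2).trans (le_of_eq ?_)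
    rw [hD2]
    ring
  have h5 : D2 * (4 * δ0) * h ≤ ε / 2 * ((m : ℝ) + 1 - d) * h := by
    refine mul_le_mul_of_nonneg_right (hδ2.trans ?_) hh0
    exact le_mul_of_one_le_right (by positivity) hmd
  have h6 : d * (4 * A1) * h ≤ ε / 2 * ((m : ℝ) + 1 - d) * h :=
    mul_le_mul_of_nonneg_right hm1 hh0
  have h7 : C * dL ≤ ((m : ℝ) + 1 - d) * (C * dL) :=
    le_mul_of_one_le_left (by positivity) hmd
  have h8 : (d : ℝ) * Bd = d * (4 * A1) * h + d * (A1 * C1 + A2) * dL := by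
    rw [hBd]
    ring
  have h9 : C * dL = d * (A1 * C1 + A2) * dL + D2 * C1 * dL + Ne * (N * cz + ck) * dL + dL := by
    rw [hC]
    ring
  have h10 : ∑ k : Fin (m + 1), part S (x k) ≤ d * Bd +
      Ne * (N * (Dτ * S1 + cz * dL) + ck * dL) := by linarith
  have h11 : (Ne : ℝ) * (N * (Dτ * S1 + cz * dL) + ck * dL) =
      Ne * (N * (Dτ * S1)) + Ne * (N * cz + ck) * dL := by ring
  have h12 : ((m : ℝ) + 1 - d) * (ε * h + C * dL) =
      ε / 2 * ((m : ℝ) + 1 - d) * h + ε / 2 * ((m : ℝ) + 1 - d) * h +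
        ((m : ℝ) + 1 - d) * (C * dL) := by ring
  linarith

end Pool.Agent.H14.DV
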