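import Pool.Agent.H14.DV.Poly

/-!
# A hypersurface contained in the union of two closed subsets
-/

set_option autoImplicit false
set_option linter.unusedSectionVars false

open MvPolynomial Pool.Agent.TH954.X Pool.Agent.TH954.V Pool.Agent.TH954.Z Pool.Agent.H14.LB
open Pool.Agent.H14.PL NumberField

namespace Pool.Agent.H14.DV

lemma nvW_mul' {K : Type} [Field K] {L : Type} [Field L] [Algebra K L] {ι : Type} [Fintype ι]
    {n : ℕ} (w : AbsoluteValue L ℝ) (σ τ : ι → ℕ) (f g : MvPolynomial (ι × Fin n) K)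
    (u : ι → Fin n → L) :
    nvW w (σ + τ) (f * g) u = nvW w σ f u * nvW w τ g u := by
  unfold nvW
  have h1 : ev (f * g) u = ev f u * ev g u := by simp only [ev, map_mul]
  rw [h1, map_mul, div_mul_div_comm, ← Finset.prod_mul_distrib]
  congr 1
  refine Finset.prod_congr rfl (fun j _ => ?_)
  rw [Pi.add_apply, pow_add]

open RedG in
/-- the local inequality, uniformly in the field -/
theorem nullG (K : Type) [Field K] (n β : ℕ) (A : Fin β → AbV K n) (E1 E2 E3 : Type)
    [Fintype E1] [Fintype E2] [Fintype E3] (g : E1 → MvPolynomial (Option (Fin β) × Fin n) K)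
    (hg : ∀ i, ∃ γ, MH γ (g i))
    (f : E2 → MvPolynomial (Option (Fin β) × Fin n) K) (δ : E2 → Option (Fin β) → ℕ)
    (hf : ∀ i, MH (δ i) (f i))
    (f' : E3 → MvPolynomial (Option (Fin β) × Fin n) K) (δ' : E3 → Option (Fin β) → ℕ)
    (hf' : ∀ i, MH (δ' i) (f' i))
    (G : MvPolynomial (Fin β × Fin n) K) (σ : Fin β → ℕ) (hσ : MH σ G)
    (hG : ∀ (F : Type) [Field F] [Algebra K F] (t : Fin n → F) (P : Bp A F), t ≠ 0 →
      (∀ i, ev (g i) (fl t P) = 0) → ev G (vc P) = 0 →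
      (∀ i, ev (f i) (fl t P) = 0) ∨ ∀ i, ev (f' i) (fl t P) = 0) :
    ∃ (N M : ℕ) (A0 : Finset K), 0 < N ∧ 1 ≤ M ∧ ∀ (L : Type) [Field L] [Algebra K L]
      (w : AbsoluteValue L ℝ) (t : Fin n → L)
      (P : Bp A L), t ≠ 0 → (∀ i, ev (g i) (fl t P) = 0) → ∀ p : E2 × E3,
        (nvW w (δ p.1) (f p.1) (fl t P) * nvW w (δ' p.2) (f' p.2) (fl t P)) ^ N ≤
          kap A0 M 1 w * nvW w σ G (vc P) := by
  classical
  set wq : E1 ⊕ (Σ b : Fin β, Fin (A b).e) → MvPolynomial (Option (Fin β) × Fin n) K :=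
    Sum.elim g (fun p => geq p.1 ((A p.1).eqn p.2)) with hwq
  have hwq1 : ∀ i, ∃ d, MH d (wq i) := by
    rintro (i | p)
    · exact hg i
    · exact ⟨_, MH_geq p.1 ((A p.1).hom p.2)⟩
  choose ρ hρ using hwq1
  obtain ⟨N, hN, t, F, iF, iA, y, hy1, hy2, hy3, hy4⟩ := nullW K wq (fun i => ⟨ρ i, hρ i⟩)
    (fun _ : Fin 1 => up G) (fun _ => ⟨_, MH_up hσ⟩)
  -- the points
  have hpt : ∀ i b, Normed (y i (some b)) ∧ ∀ l, aeval (y i (some b)) ((A b).eqn l) = 0 := by
    intro i b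
    refine ⟨hy1 i (some b), fun l => ?_⟩
    have h1 := hy2 i (Sum.inr ⟨b, l⟩)
    change ev (geq b ((A b).eqn l)) (y i) = 0 at h1
    rw [ev_geq] at h1
    exact h1
  set P : ∀ i, Bp A (F i) := fun i b => ⟨y i (some b), hpt i b⟩ with hP
  have hful : ∀ i, fl (y i none) (P i) = y i := by
    intro i
    funext o
    cases o with
    | none => rfl
    | some b => rfl
  have hvan : ∀ (i : Fin t) (p : E2 × E3), ev (f p.1 * f' p.2) (y i) = 0 := by
    intro i p
    have h1 := hG (F i) (y i none) (P i) (hy1 i none).ne_zero (fun l => by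
      rw [hful i]
      exact hy2 i (Sum.inl l)) (by
      have h2 := hy3 i 0
      rw [ev_up] at h2
      exact h2)
    have h2 : ev (f p.1 * f' p.2) (y i) = ev (f p.1) (y i) * ev (f' p.2) (y i) := by
      simp only [ev, map_mul]
    rw [h2]
    rcases h1 with h1 | h1
    · have h3 := h1 p.1
      rw [hful i] at h3
      rw [h3, zero_mul]
    · have h3 := h1 p.2
      rw [hful i] at h3
      rw [h3, mul_zero]
  have key := fun p : E2 × E3 => locW_null wq ρ hρ (fun _ : Fin 1 => up G) (fun _ => _)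
    (fun _ => MH_up hσ) (f p.1 * f' p.2) _ (MH_mul (hf p.1) (hf' p.2)) N
    (hy4 _ ⟨_, MH_mul (hf p.1) (hf' p.2)⟩ (fun i => hvan i p))
  choose A' M hM hAM using key
  refine ⟨N, (∑ l, M l) + 1, Finset.univ.biUnion A', hN, Nat.succ_pos _,
    fun L _ _ w t u ht hgu p => ?_⟩
  have h1 := hAM p L w (fl t u) ?_ ?_
  · rw [ciSup_const, nvW_upL] at h1
    have h2 : nvW w (δ p.1) (f p.1) (fl t u) * nvW w (δ' p.2) (f' p.2) (fl t u) =
        nvW w (δ p.1 + δ' p.2) (f p.1 * f' p.2) (fl t u) := (nvW_mul' w _ _ _ _ _).symm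
    rw [h2]
    refine h1.trans (mul_le_mul_of_nonneg_right (kap_monoL ?_ ?_ w) (nvW_nonneg _ _ _ _))
    · exact Finset.subset_biUnion_of_mem A' (Finset.mem_univ p)
    · exact (Finset.single_le_sum (f := M) (fun _ _ => Nat.zero_le _)
        (Finset.mem_univ p)).trans (Nat.le_succ _)
  · rintro (_ | b)
    · exact ht
    · exact (u b).2.1.ne_zero
  · rintro (i | p)
    · exact hgu i
    · change ev (geq p.1 ((A p.1).eqn p.2)) (fl t u) = 0
      rw [ev_geq]
      exact (u p.1).2.2 p.2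

end Pool.Agent.H14.DV
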