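import Pool.Agent.H14.PL.Px

/-!
# Sums over a finite set of places
-/

set_option autoImplicit false
set_option linter.unusedSectionVars false

open MvPolynomial Pool.Agent.TH954.X Pool.Agent.TH954.V Pool.Agent.TH954.Z Pool.Agent.H14.LB
open NumberField

namespace Pool.Agent.H14.DV

/-- a finite set of places of a number field -/
structure Pls (L : Type) [Field L] [NumberField L] where
  /-- the infinite places -/
  inf : Finset (InfinitePlace L)
  /-- the finite places -/
  fin : Finset (FinitePlace L)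

/-- the number of the places -/
def Pls.card {L : Type} [Field L] [NumberField L] (S : Pls L) : ℕ := S.inf.card + S.fin.card

/-- the sum over the places of a finite set, with the weights of `tot` -/
noncomputable def part {L : Type} [Field L] [NumberField L] (S : Pls L)
    (g : AbsoluteValue L ℝ → ℝ) : ℝ :=
  ∑ w ∈ S.inf, (w.mult : ℝ) * g (ai w) + ∑ v ∈ S.fin, g (av v)

section

variable {L : Type} [Field L] [NumberField L] (S : Pls L)

lemma part_mono {g h : AbsoluteValue L ℝ → ℝ} (hgh : ∀ w, g w ≤ h w) : part S g ≤ part S h := by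
  unfold part
  exact add_le_add (Finset.sum_le_sum (fun w _ => mul_le_mul_of_nonneg_left (hgh _)
    (Nat.cast_nonneg _))) (Finset.sum_le_sum (fun v _ => hgh _))

lemma part_zero : part S (fun _ => 0) = 0 := by
  unfold part
  simp

lemma part_add (g h : AbsoluteValue L ℝ → ℝ) :
    part S (fun w => g w + h w) = part S g + part S h := by
  unfold part
  simp only [mul_add, Finset.sum_add_distrib]
  ring

lemma part_mul (c : ℝ) (g : AbsoluteValue L ℝ → ℝ) :
    part S (fun w => c * g w) = c * part S g := by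
  unfold part
  rw [mul_add, Finset.mul_sum, Finset.mul_sum]
  congr 1
  exact Finset.sum_congr rfl (fun w _ => by ring)

lemma part_sum {ι : Type} (s : Finset ι) (g : ι → AbsoluteValue L ℝ → ℝ) :
    part S (fun w => ∑ i ∈ s, g i w) = ∑ i ∈ s, part S (g i) := by
  classical
  induction s using Finset.induction_on with
  | empty => simp [part_zero]
  | insert a s ha ih =>
    simp only [Finset.sum_insert ha]
    rw [part_add, ih]

lemma inf_le_tot {g : AbsoluteValue L ℝ → ℝ} (hg : ∀ w, 0 ≤ g w) (T : Finset (InfinitePlace L)) :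
    ∑ w ∈ T, (w.mult : ℝ) * g (ai w) ≤ ∑ w : InfinitePlace L, (w.mult : ℝ) * g (ai w) :=
  Finset.sum_le_sum_of_subset_of_nonneg (Finset.subset_univ _)
    (fun _ _ _ => mul_nonneg (Nat.cast_nonneg _) (hg _))

lemma fin_le_tot {g : AbsoluteValue L ℝ → ℝ} (hg : ∀ w, 0 ≤ g w) (hF : FS g)
    (T : Finset (FinitePlace L)) : ∑ v ∈ T, g (av v) ≤ ∑ᶠ v : FinitePlace L, g (av v) := by
  classical
  rw [finsum_eq (T ∪ hF.toFinset) (fun v hv => Finset.mem_union_right _
    ((Set.Finite.mem_toFinset hF).mpr hv))]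
  exact Finset.sum_le_sum_of_subset_of_nonneg Finset.subset_union_left (fun v _ _ => hg _)

/-- the sum over a set of places is at most the total sum -/
lemma part_le_tot {g : AbsoluteValue L ℝ → ℝ} (hg : ∀ w, 0 ≤ g w) (hF : FS g) :
    part S g ≤ tot g := by
  unfold part tot
  exact add_le_add (inf_le_tot hg _) (fin_le_tot hg hF _)

lemma single_inf {g : AbsoluteValue L ℝ → ℝ} (hg : ∀ w, 0 ≤ g w) (hF : FS g)
    (w : InfinitePlace L) : (w.mult : ℝ) * g (ai w) ≤ tot g := by
  have h1 := part_le_tot ⟨{w}, ∅⟩ hg hF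
  unfold part at h1
  simpa using h1

lemma single_fin {g : AbsoluteValue L ℝ → ℝ} (hg : ∀ w, 0 ≤ g w) (hF : FS g)
    (v : FinitePlace L) : g (av v) ≤ tot g := by
  have h1 := part_le_tot ⟨∅, {v}⟩ hg hF
  unfold part at h1
  simpa using h1

/-- the sum of the maxima over at most `s` places -/
lemma part_sup_le {k : ℕ} (x : Fin (k + 1) → AbsoluteValue L ℝ → ℝ) (hx : ∀ i w, 0 ≤ x i w)
    (hF : ∀ i, FS (x i)) (B : ℝ) (hB : ∀ i, tot (x i) ≤ B) :
    part S (fun w => ⨆ i, x i w) ≤ S.card * B := by
  have hne : Nonempty (Fin (k + 1)) := ⟨0⟩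
  unfold part Pls.card
  have h1 : ∑ w ∈ S.inf, (w.mult : ℝ) * (⨆ i, x i (ai w)) ≤ S.inf.card * B := by
    calc ∑ w ∈ S.inf, (w.mult : ℝ) * (⨆ i, x i (ai w)) ≤ ∑ w ∈ S.inf, B := by
          refine Finset.sum_le_sum (fun w _ => ?_)
          obtain ⟨i, hi⟩ := exists_eq_ciSup_of_finite (f := fun i => x i (ai w))
          rw [← hi]
          exact (single_inf (hx i) (hF i) w).trans (hB i)
      _ = _ := by rw [Finset.sum_const, nsmul_eq_mul]
  have h2 : ∑ v ∈ S.fin, (⨆ i, x i (av v)) ≤ S.fin.card * B := by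
    calc ∑ v ∈ S.fin, (⨆ i, x i (av v)) ≤ ∑ v ∈ S.fin, B := by
          refine Finset.sum_le_sum (fun v _ => ?_)
          obtain ⟨i, hi⟩ := exists_eq_ciSup_of_finite (f := fun i => x i (av v))
          rw [← hi]
          exact (single_fin (hx i) (hF i) v).trans (hB i)
      _ = _ := by rw [Finset.sum_const, nsmul_eq_mul]
  push_cast
  linarith

end

end Pool.Agent.H14.DV
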