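import Pool.Agent.H14.DV.LocD

/-!
# The points with a local property in a finitely generated group
-/

set_option autoImplicit false
set_option linter.unusedSectionVars false

open MvPolynomial Pool.Agent.TH954.X Pool.Agent.TH954.V Pool.Agent.TH954.Z Pool.Agent.H14.LB
open Pool.Agent.H14.PL NumberField

namespace Pool.Agent.H14.DV

variable {K : Type} [Field K] [NumberField K] {n β : ℕ}

/-- the points of a shell lie on few hypersurfaces of bounded degree -/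
lemma shellG {A : Fin β → AbV K n} {δ0 : ℝ} {D : ℕ} (hδ0 : 0 < δ0)
    (L : Type) [Field L] [NumberField L] [Algebra K L] (Ex : Bp A L → Prop)
    (hloc : LocSt A D δ0 L Ex) (Γ : AddSubgroup (Bp A L))
    (hΓ : Γ.FG) (q : Bp A L → ℝ) (hq0 : ∀ P, 0 ≤ q P)
    (hq1 : ∀ P Q, q (P + Q) + q (P - Q) = 2 * (q P + q Q)) (c : ℝ)
    (hq2 : ∀ P, |q P - htL P| ≤ c) (U : ℝ) (hU : 0 < U) (hδ1 : δ0 ≤ 1 / 4)
    (hcU : c ≤ δ0 * U / 2) :
    ∃ (Z : Finset Γ) (H : Γ → MvPolynomial (Fin β × Fin n) L) (σ : Γ → Fin β → ℕ),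
      (Z.card : ℝ) ≤ (2 * √(6 / δ0) + 1) ^ (Module.finrank ℤ Γ) ∧ (∀ z, MH (σ z) (H z)) ∧
      (∀ z b, σ z b ≤ D) ∧ (∀ z, NZ1 A L (H z)) ∧
      ∀ P ∈ Γ, U ≤ htL P → htL P ≤ 2 * U → Ex P → ∃ z ∈ Z, ev (H z) (vc P) = 0 := by
  classical
  have hG : AddGroup.FG Γ := (AddGroup.fg_iff_addSubgroup_fg Γ).2 hΓ
  obtain ⟨v, hv⟩ := euc hG (fun P : Γ => q P) (fun P => hq0 _) (fun P Q => hq1 _ _)
  have hv' : ∀ P : Γ, ‖v P‖ = √(q P) := fun P => by
    rw [← hv P, Real.sqrt_sq (norm_nonneg _)]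
  set t : ℝ := √(δ0 * U / 2) with ht
  have ht0 : 0 < t := Real.sqrt_pos.2 (by positivity)
  set S : Set Γ := {P | U ≤ htL (P : Bp A L) ∧ htL (P : Bp A L) ≤ 2 * U} with hS
  obtain ⟨Z, hZS, hZc, hZ⟩ := cover v S (√(6 / δ0)) t (Real.sqrt_nonneg _) ht0 (by
    intro P hP
    rw [hv', ht, ← Real.sqrt_mul (by positivity)]
    refine Real.sqrt_le_sqrt ?_
    have h1 := (abs_le.1 (hq2 P)).2
    have h2 : 6 / δ0 * (δ0 * U / 2) = 3 * U := by
      field_simp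
      ring
    rw [h2]
    have h3 := hP.2
    nlinarith)
  rw [finrank_euclideanSpace_fin] at hZc
  choose H σ hσ hσD hN hH using fun z : Γ => hloc (z : Bp A L)
  refine ⟨Z, H, σ, hZc, hσ, hσD, hN, fun P hP h1 h2 h3 => ?_⟩
  obtain ⟨z, hz, hz1⟩ := hZ ⟨P, hP⟩ ⟨h1, h2⟩
  have hzS := hZS hz
  refine ⟨z, hz, hH z P ?_ h3⟩
  rw [hv'] at hz1
  have h5 : q (P - z) < δ0 * U / 2 := by
    have h6 := Real.lt_sqrt (Real.sqrt_nonneg _) |>.1 (ht ▸ hz1)
    rw [Real.sq_sqrt (hq0 _)] at h6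
    exact h6
  have h6 := (abs_le.1 (hq2 (P - z))).1
  have h7 : δ0 * U ≤ δ0 * htL (z : Bp A L) := mul_le_mul_of_nonneg_left hzS.1 hδ0.le
  linarith

/-- **The points of a finitely generated group with a local property.** -/
theorem polyG (A : Fin β → AbV K n) (D : ℕ) (δ0 : ℝ) (hδ0 : 0 < δ0) (hδ1 : δ0 ≤ 1 / 4) :
    ∃ c0 : ℝ, 1 ≤ c0 ∧ ∀ D0 : ℕ, ∃ (C c : ℝ) (κ : ℕ), 1 ≤ c ∧
      (∀ (L : Type) [Field L] [NumberField L] [Algebra K L] (φ : L →ₐ[K] AlgebraicClosure K)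
        (Ex : Bp A L → Prop), LocSt A D δ0 L Ex →
        ∀ (h0 : MvPolynomial (Fin β × Fin n) L) (η : Fin β → ℕ), MH η h0 → (∀ b, η b ≤ D0) →
        NZ1 A L h0 → (∀ P, htL P ≤ c0 * Module.finrank ℚ L → Ex P → ev h0 (vc P) = 0) →
        ∀ (Γ : AddSubgroup (Bp A L)), Γ.FG →
        ∀ T : ℝ, 1 ≤ T → ∃ (H : MvPolynomial (Fin β × Fin n) L) (σ : Fin β → ℕ), MH σ H ∧
          (∀ b, (σ b : ℝ) ≤ c ^ (1 + Module.finrank ℤ Γ) * (1 + Real.log T)) ∧ NZ1 A L H ∧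
          (∀ P ∈ Γ, htL P ≤ T * Module.finrank ℚ L → Ex P → ev H (vc P) = 0) ∧
          ∃ Z : Finset (Bp A L), (∀ z ∈ Z, z ∈ Γ) ∧
            (Z.card : ℝ) ≤ (c ^ (1 + Module.finrank ℤ Γ) * (1 + Real.log T)) ^ κ ∧
            ∀ P ∈ Γ, htL P ≤ T * Module.finrank ℚ L → Ex P →
              ¬ Ueno (mpc φ H) (bcB φ P) → ∃ z ∈ Z, htL (P - z) ≤ C * Module.finrank ℚ L) := by
  classical
  obtain ⟨C2, hC2, hcan⟩ := canB A
  obtain ⟨c3, c4, hc3, hc4, κ, hml⟩ := ml A D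
  -- the constants
  set c0 : ℝ := 1 + 2 * C2 / δ0 with hc0
  have hc01 : 1 ≤ c0 := by
    have : 0 ≤ 2 * C2 / δ0 := by positivity
    linarith
  have hc02 : C2 ≤ δ0 * c0 / 2 := by
    have h1 : δ0 * c0 = δ0 + 2 * C2 := by
      rw [hc0]
      field_simp
    rw [h1]
    linarith
  refine ⟨c0, hc01, fun D0 => ?_⟩
  set C : ℝ := max c0 c3 with hC
  have hCc0 : c0 ≤ C := le_max_left _ _
  have hCc3 : c3 ≤ C := le_max_right _ _
  set R : ℝ := 2 * √(6 / δ0) + 1 with hR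
  have hR1 : 1 ≤ R := by
    have := Real.sqrt_nonneg (6 / δ0)
    linarith
  set c : ℝ := 2 * R + 2 * D + D0 + c4 with hc
  have hη0 : (0 : ℝ) ≤ D0 := Nat.cast_nonneg _
  have hDD0 : (0 : ℝ) ≤ 2 * D := by positivity
  have hcR : 2 * R ≤ c := by linarith
  have hcc4 : c4 ≤ c := by linarith
  have hc2 : 2 ≤ c := by linarith
  refine ⟨C, c, κ + 2, by linarith, fun L _ _ _ φ Ex hloc h0 η hη hηD hN0 hsmall Γ hΓ T hT => ?_⟩
  set dL : ℝ := (Module.finrank ℚ L : ℝ) with hdL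
  have hdL0 : 0 < dL := by
    have : 0 < Module.finrank ℚ L := Module.finrank_pos
    exact Nat.cast_pos.2 this
  have hlogT : 0 ≤ Real.log T := Real.log_nonneg hT
  obtain ⟨q, hq0, hq1, hq2⟩ := hcan L
  set J : ℕ := ⌊Real.logb 2 T⌋₊ + 1 with hJ
  have hJle : (J : ℝ) ≤ 2 * (1 + Real.log T) := by
    rw [hJ]
    push_cast
    exact shells hT
  have hshell : ∀ j : ℕ, ∃ (Z : Finset Γ) (H : Γ → MvPolynomial (Fin β × Fin n) L)
      (σ : Γ → Fin β → ℕ), (Z.card : ℝ) ≤ R ^ (Module.finrank ℤ Γ) ∧ (∀ z, MH (σ z) (H z)) ∧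
      (∀ z b, σ z b ≤ D) ∧ (∀ z, NZ1 A L (H z)) ∧
      ∀ P ∈ Γ, 2 ^ j * (c0 * dL) ≤ htL P → htL P ≤ 2 * (2 ^ j * (c0 * dL)) →
        Ex P → ∃ z ∈ Z, ev (H z) (vc P) = 0 := by
    intro j
    refine shellG hδ0 L Ex hloc Γ hΓ q hq0 hq1 (C2 * dL) hq2 (2 ^ j * (c0 * dL))
      (by positivity) hδ1 ?_
    have h1 : (1 : ℝ) ≤ 2 ^ j := one_le_pow₀ (by norm_num)
    have h2 : C2 * dL ≤ δ0 * c0 / 2 * dL := mul_le_mul_of_nonneg_right hc02 hdL0.le
    have h3 : 0 ≤ δ0 * c0 / 2 * dL := by positivity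
    calc C2 * dL ≤ δ0 * c0 / 2 * dL := h2
      _ ≤ 2 ^ j * (δ0 * c0 / 2 * dL) := le_mul_of_one_le_left h3 h1
      _ = δ0 * (2 ^ j * (c0 * dL)) / 2 := by ring
  choose Zs Hs σs hZs hσs hσsD hNs hHs using hshell
  -- the index set of the hypersurfaces
  set I : Finset ((_ : ℕ) × Γ) := (Finset.range J).sigma Zs with hI
  have hIcard : (I.card : ℝ) ≤ J * R ^ (Module.finrank ℤ Γ) := by
    rw [hI, Finset.card_sigma]
    push_cast
    calc ∑ j ∈ Finset.range J, ((Zs j).card : ℝ)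
        ≤ ∑ _j ∈ Finset.range J, R ^ (Module.finrank ℤ Γ) :=
          Finset.sum_le_sum (fun j _ => hZs j)
      _ = _ := by rw [Finset.sum_const, Finset.card_range, nsmul_eq_mul]
  set Hf : ((_ : ℕ) × Γ) → MvPolynomial (Fin β × Fin n) L := fun i => Hs i.1 i.2 with hHf
  set σf : ((_ : ℕ) × Γ) → Fin β → ℕ := fun i => σs i.1 i.2 with hσf
  have hprodMH := MH_prod I σf Hf (fun i _ => hσs i.1 i.2)
  set r := Module.finrank ℤ Γ with hr
  have hRr1 : (1 : ℝ) ≤ R ^ r := one_le_pow₀ hR1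
  have hRc : R ^ r ≤ c ^ r := pow_le_pow_left₀ (by linarith) (by linarith) _
  have hcr1 : (1 : ℝ) ≤ c ^ r := one_le_pow₀ (by linarith)
  choose Zm hZmΓ hZmc hZm using fun i : ((_ : ℕ) × Γ) =>
    hml L φ Γ hΓ T hT (mpc φ (Hf i)) (σf i) (MH_mpc φ (hσs i.1 i.2)) (hσsD i.1 i.2)
  have hexc : ∀ P ∈ Γ, htL P ≤ T * dL → Ex P → c0 * dL ≤ htL P →
      ∃ i ∈ I, ev (Hf i) (vc P) = 0 := by
    intro P hP hPT hPE hbig
    have h1 : 1 ≤ htL P / (c0 * dL) := by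
      rw [le_div_iff₀ (by positivity)]
      linarith
    obtain ⟨j, hj1, hj2⟩ := exists_nat_pow_near h1 (by norm_num : (1 : ℝ) < 2)
    rw [le_div_iff₀ (by positivity)] at hj1
    rw [div_lt_iff₀ (by positivity)] at hj2
    have hjJ : j ∈ Finset.range J := by
      rw [Finset.mem_range, hJ, Nat.lt_succ_iff]
      refine Nat.le_floor ?_
      rw [Real.le_logb_iff_rpow_le (by norm_num) (by linarith), Real.rpow_natCast]
      have h2 : (2 : ℝ) ^ j * (1 * dL) ≤ 2 ^ j * (c0 * dL) := by gcongr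
      have h3 : (2 : ℝ) ^ j * dL ≤ T * dL := by linarith
      exact le_of_mul_le_mul_right h3 hdL0
    obtain ⟨z, hz, hz'⟩ := hHs j P hP hj1 (by
      rw [pow_succ] at hj2
      linarith) hPE
    exact ⟨⟨j, z⟩, Finset.mem_sigma.2 ⟨hjJ, hz⟩, hz'⟩
  have hmul : ∀ u : Fin β → Fin n → L, ev (h0 * ∏ i ∈ I, Hf i) u =
      ev h0 u * ∏ i ∈ I, ev (Hf i) u := by
    intro u
    simp only [ev, map_mul, map_prod]
  refine ⟨h0 * ∏ i ∈ I, Hf i, _, MH_mul hη hprodMH, fun b => ?_,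
    NZ1_mul A L hη hprodMH hN0
      (NZ1_prod A L _ Hf σf (fun i _ => hσs i.1 i.2) (fun i _ => hNs i.1 i.2)),
    fun P hP hPT hPE => ?_, insert 0 (I.biUnion Zm), ?_, ?_, fun P hP hPT hPE hU => ?_⟩
  · push_cast
    have h1 : ∑ i ∈ I, (σf i b : ℝ) ≤ J * (R ^ r * D) := by
      calc ∑ i ∈ I, (σf i b : ℝ)
          ≤ ∑ _i ∈ I, (D : ℝ) :=
            Finset.sum_le_sum (fun i _ => by exact_mod_cast hσsD i.1 i.2 b)
        _ = I.card * D := by rw [Finset.sum_const, nsmul_eq_mul]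
        _ ≤ J * R ^ r * D := mul_le_mul_of_nonneg_right hIcard (Nat.cast_nonneg _)
        _ = J * (R ^ r * D) := by ring
    have h3 : (η b : ℝ) ≤ D0 := by exact_mod_cast hηD b
    have h7 : (J : ℝ) * (R ^ r * D) ≤
        2 * (1 + Real.log T) * (R ^ r * D) :=
      mul_le_mul_of_nonneg_right hJle (by positivity)
    have h8 : (η b : ℝ) ≤ D0 * (R ^ r * (1 + Real.log T)) := by
      refine h3.trans (le_mul_of_one_le_right hη0 ?_)
      have := mul_le_mul hRr1 (by linarith : (1 : ℝ) ≤ 1 + Real.log T) zero_le_one (by positivity)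
      linarith
    calc (η b : ℝ) + ∑ i ∈ I, (σf i b : ℝ)
        ≤ D0 * (R ^ r * (1 + Real.log T)) +
          2 * (1 + Real.log T) * (R ^ r * D) := by linarith
      _ = (2 * D + D0) * (R ^ r * (1 + Real.log T)) := by ring
      _ ≤ c * (R ^ r * (1 + Real.log T)) :=
          mul_le_mul_of_nonneg_right (by linarith) (by positivity)
      _ ≤ c * (c ^ r * (1 + Real.log T)) := by
          refine mul_le_mul_of_nonneg_left (mul_le_mul_of_nonneg_right hRc (by linarith)) ?_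
          linarith
      _ = c ^ (1 + r) * (1 + Real.log T) := by
          rw [pow_add, pow_one, mul_assoc]
  · rw [hmul]
    by_cases hsm : htL P < c0 * dL
    · rw [hsmall P hsm.le hPE, zero_mul]
    · push Not at hsm
      obtain ⟨i, hi, hi'⟩ := hexc P hP hPT hPE hsm
      rw [Finset.prod_eq_zero hi hi', mul_zero]
  · intro z hz
    rcases Finset.mem_insert.1 hz with rfl | hz
    · exact Γ.zero_mem
    · obtain ⟨i, -, hz⟩ := Finset.mem_biUnion.1 hz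
      exact hZmΓ i z hz
  · set M : ℝ := c ^ (1 + r) * (1 + Real.log T) with hM
    have hM2 : 2 ≤ M := by
      have h1 : c ≤ c ^ (1 + r) := by
        rw [pow_add, pow_one]
        exact le_mul_of_one_le_right (by linarith) hcr1
      have h2 : c ^ (1 + r) * 1 ≤ M := mul_le_mul_of_nonneg_left (by linarith) (by positivity)
      linarith
    have hIM : (I.card : ℝ) ≤ M := by
      refine hIcard.trans ?_
      have h1 : (J : ℝ) * R ^ r ≤ 2 * (1 + Real.log T) * R ^ r :=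
        mul_le_mul_of_nonneg_right hJle (by positivity)
      have h2 : 2 * (1 + Real.log T) * R ^ r ≤ 2 * (1 + Real.log T) * c ^ r :=
        mul_le_mul_of_nonneg_left hRc (by linarith)
      have h3 : 2 * (1 + Real.log T) * c ^ r ≤ c * (1 + Real.log T) * c ^ r := by gcongr
      have h4 : c * (1 + Real.log T) * c ^ r = M := by rw [hM, pow_add, pow_one]; ring
      linarith
    have hZmM : ∀ i, ((Zm i).card : ℝ) ≤ M ^ κ := by
      intro i
      refine (hZmc i).trans (pow_le_pow_left₀ (by positivity) ?_ κ)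
      exact mul_le_mul_of_nonneg_right (pow_le_pow_left₀ (by linarith) hcc4 _) (by linarith)
    have h1 : ((I.biUnion Zm).card : ℝ) ≤ I.card * M ^ κ := by
      have h2 : ((I.biUnion Zm).card : ℝ) ≤ ∑ i ∈ I, ((Zm i).card : ℝ) := by
        exact_mod_cast Finset.card_biUnion_le
      refine h2.trans ((Finset.sum_le_sum (fun i _ => hZmM i)).trans ?_)
      rw [Finset.sum_const, nsmul_eq_mul]
    have h2 : ((insert 0 (I.biUnion Zm)).card : ℝ) ≤ (I.biUnion Zm).card + 1 := by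
      exact_mod_cast Finset.card_insert_le 0 (I.biUnion Zm)
    have h3 : (I.card : ℝ) * M ^ κ ≤ M * M ^ κ := mul_le_mul_of_nonneg_right hIM (by positivity)
    have h4 : (1 : ℝ) ≤ M ^ (κ + 1) := one_le_pow₀ (by linarith)
    have h5 : M ^ (κ + 2) = M ^ (κ + 1) * M := by ring
    have h6 : M ^ (κ + 1) * 2 ≤ M ^ (κ + 1) * M := mul_le_mul_of_nonneg_left hM2 (by positivity)
    have h7 : M * M ^ κ = M ^ (κ + 1) := by ring
    rw [h5]
    linarith
  · by_cases hsm : htL P < c0 * dL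
    · refine ⟨0, Finset.mem_insert_self _ _, ?_⟩
      rw [sub_zero]
      exact hsm.le.trans (mul_le_mul_of_nonneg_right hCc0 hdL0.le)
    · push Not at hsm
      obtain ⟨i, hi, hi'⟩ := hexc P hP hPT hPE hsm
      obtain ⟨z, hz, hz'⟩ := hZm i P hP hPT (by rw [ev_mpc, hi', map_zero]) (by
        rintro ⟨u, hu, hum⟩
        refine hU ⟨u, hu, fun m => ?_⟩
        have h1 : ev (mpc φ (h0 * ∏ i ∈ I, Hf i)) (vc (bcB φ P + m • u)) =
            ev (mpc φ h0) (vc (bcB φ P + m • u)) *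
              ∏ i ∈ I, ev (mpc φ (Hf i)) (vc (bcB φ P + m • u)) := by
          simp only [ev, mpc, map_mul, map_prod]
        rw [h1, Finset.prod_eq_zero hi (hum m), mul_zero])
      refine ⟨z, Finset.mem_insert_of_mem (Finset.mem_biUnion.2 ⟨i, hi, hz⟩), ?_⟩
      exact hz'.trans (mul_le_mul_of_nonneg_right hCc3 hdL0.le)

end Pool.Agent.H14.DV
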