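import Pool.Agent.H14.DV.Int
import Pool.Agent.H14.PL.S2

/-!
# Definitions for the statements
-/

set_option autoImplicit false
set_option linter.unusedSectionVars false

open MvPolynomial NumberField Pool.Agent.TH954.X Pool.Agent.TH954.Z Pool.Agent.TH954.V
open Pool.Agent.H14.LB Pool.Agent.H14.PL
open Pool.Agent.H14.LB.S Pool.Agent.H14.PL.S

namespace Pool.Agent.H14.DV.S

section

variable {K : Type} [Field K] {n β : ℕ}

/-- the proximity function of a point over the number field `L`, with respect to the closed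
subscheme `D` and the set of places `S` consisting of the archimedean places and the places over
the primes in `S0`: the sum of the local heights over the places in `S`, divided by the degree of
`L` -/
noncomputable def proximity (D : Eqs K n β) (S0 : Finset ℕ) {L : Type} [Field L] [NumberField L]
    [Algebra K L] (x : Option (Fin β) → Fin n → L) : ℝ :=
  (∑ w : InfinitePlace L, (w.mult : ℝ) * lambda D x w.val +
    ∑ᶠ (v : FinitePlace L) (_ : ∃ p ∈ S0, v (p : L) < 1), lambda D x v.val) /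
      Module.finrank ℚ L

/-- the coordinates of the point `P` of `B(L)` are in an extension of `K` of degree at most `r` -/
def DegreeLe {A : Fin β → AbV K n} (r : ℕ) {L : Type} [Field L] [Algebra K L] (P : Pts A L) :
    Prop :=
  ∃ F : IntermediateField K L, Module.finrank K F ≤ r ∧ ∀ b c, crds P b c ∈ F

/-- over the point `P` of `B(L)` there is a point `x` of `X(L)` which is in `D` or in `W` or does not
satisfy the inequality `m_S(D, x) + h_W(x) ≤ ε h(P) + C` -/
def Violating {A : Fin β → AbV K n} (X D W : Eqs K n β) (S0 : Finset ℕ) (ε C : ℝ) {L : Type}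
    [Field L] [NumberField L] [Algebra K L] (P : Pts A L) : Prop :=
  ∃ t : Fin n → L, t ≠ 0 ∧ On X t P ∧ (On D t P ∨ On W t P ∨
    ε * height P + C < proximity D S0 (full t P) + heightW W (full t P))

/-- the points `P` of the group `Γ`, of degree at most `r` over `K` and of height at most `T`, over
which there is a point `x` of `X(L)` which is in `D` or in `W` or does not satisfy the inequality
`m_S(D, x) + h_W(x) ≤ ε h(P) + C` -/
def ViolatingSet {A : Fin β → AbV K n} (X D W : Eqs K n β) (S0 : Finset ℕ) (r : ℕ) (ε C : ℝ)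
    {L : Type} [Field L] [NumberField L] [Algebra K L] (Γ : AddSubgroup (Pts A L)) (T : ℝ) :
    Set (Pts A L) :=
  {P | P ∈ Γ ∧ height P ≤ T ∧ DegreeLe r P ∧ Violating X D W S0 ε C P}

/-- the sum of the local heights with respect to `D` over the places outside of the finite set `S`,
divided by the degree of `L` -/
noncomputable def counting (D : Eqs K n β) {L : Type} [Field L] [NumberField L]
    [Algebra K L] (S : Pls L) (x : Option (Fin β) → Fin n → L) : ℝ :=
  heightW D x - (∑ w ∈ S.inf, (w.mult : ℝ) * lambda D x w.val +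
    ∑ v ∈ S.fin, lambda D x v.val) / Module.finrank ℚ L

/-- over the point `P` of `B(L)` there is a point `x` of `X(L)` outside of `D` with
`N_S(D, x) ≤ m h_W(x) + η h(P) + C` -/
def Integral {A : Fin β → AbV K n} (X D W : Eqs K n β) (m η C : ℝ) {L : Type}
    [Field L] [NumberField L] [Algebra K L] (S : Pls L) (P : Pts A L) : Prop :=
  ∃ t : Fin n → L, t ≠ 0 ∧ On X t P ∧ ¬ On D t P ∧
    counting D S (full t P) ≤ m * heightW W (full t P) + η * height P + C

/-- the points `P` of the group `Γ`, with `C' < h(P) ≤ T`, over which there is a point `x` of `X(L)`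
outside of `D` with `N_S(D, x) ≤ m h_W(x) + η h(P) + C` -/
def IntegralSet {A : Fin β → AbV K n} (X D W : Eqs K n β) (m η C : ℝ) {L : Type}
    [Field L] [NumberField L] [Algebra K L] (S : Pls L) (Γ : AddSubgroup (Pts A L))
    (C' T : ℝ) : Set (Pts A L) :=
  {P | P ∈ Γ ∧ C' < height P ∧ height P ≤ T ∧ Integral X D W m η C S P}

end

variable {K : Type} [Field K] [NumberField K] {n β : ℕ}

/-- the places of `L` over the primes in `S0` -/
lemma over_finite (S0 : Finset ℕ) (hS0 : ∀ p ∈ S0, p ≠ 0) (L : Type) [Field L] [NumberField L] :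
    {v : FinitePlace L | ∃ p ∈ S0, v (p : L) < 1}.Finite := by
  have h1 : {v : FinitePlace L | ∃ p ∈ S0, v (p : L) < 1} ⊆
      ⋃ p ∈ S0, {v : FinitePlace L | Real.log (av v (p : L)) ≠ 0} := by
    rintro v ⟨p, hp, hv⟩
    refine Set.mem_biUnion hp ?_
    have h2 : 0 < v (p : L) := FinitePlace.pos_iff.2 (by exact_mod_cast hS0 p hp)
    have h3 := Real.log_neg h2 hv
    exact h3.ne
  refine Set.Finite.subset (Set.Finite.biUnion S0.finite_toSet (fun p hp => ?_)) h1
  exact FS_log (by exact_mod_cast hS0 p hp)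

open Classical in
/-- the finite set of places -/
noncomputable def plsOf (S0 : Finset ℕ) (hS0 : ∀ p ∈ S0, p ≠ 0) (L : Type) [Field L]
    [NumberField L] : Pls L := ⟨Finset.univ, (over_finite S0 hS0 L).toFinset⟩

lemma prox_eq (D : Eqs K n β) (S0 : Finset ℕ) (hS0 : ∀ p ∈ S0, p ≠ 0) {L : Type} [Field L]
    [NumberField L] [Algebra K L] (x : Option (Fin β) → Fin n → L) :
    proximity D S0 x = part (plsOf S0 hS0 L) (fun w : AbsoluteValue L ℝ =>
      -Real.log (⨆ i, nvW w (D.δ i) (D.f i) x)) / Module.finrank ℚ L := by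
  unfold proximity part
  congr 2
  exact finsum_mem_eq_finite_toFinset_sum _ (over_finite S0 hS0 L)

lemma viol_iff {A : Fin β → AbV K n}
    (X D W : Eqs K n β) (S0 : Finset ℕ) (hS0 : ∀ p ∈ S0, p ≠ 0) (ε C : ℝ) {L : Type} [Field L]
    [NumberField L] [Algebra K L] (P : Pts A L) :
    Violating X D W S0 ε C P ↔ ExV X.f D.f D.δ W.f W.δ ε C (plsOf S0 hS0 L) P := by
  have hd : (0 : ℝ) < Module.finrank ℚ L := Nat.cast_pos.2 Module.finrank_pos
  have key : ∀ t : Fin n → L, (ε * height P + C < proximity D S0 (full t P) +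
      heightW W (full t P) ↔ ε * htL P + C * Module.finrank ℚ L <
        part (plsOf S0 hS0 L) (fun w : AbsoluteValue L ℝ =>
          -Real.log (⨆ i, nvW w (D.δ i) (D.f i) (full t P))) +
        Pool.Agent.TH954.V.tot (fun w : AbsoluteValue L ℝ =>
          -Real.log (⨆ i, nvW w (W.δ i) (W.f i) (full t P)))) := by
    intro t
    have h1 : heightW W (full t P) = Pool.Agent.TH954.V.tot (fun w : AbsoluteValue L ℝ =>
        -Real.log (⨆ i, nvW w (W.δ i) (W.f i) (full t P))) /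
        Module.finrank ℚ L := rfl
    have h2 : height P = htL P / Module.finrank ℚ L := rfl
    rw [h1, h2, prox_eq D S0 hS0, ← add_div, lt_div_iff₀ hd]
    have h3 : (ε * (htL P / Module.finrank ℚ L) + C) * Module.finrank ℚ L =
        ε * htL P + C * Module.finrank ℚ L := by
      field_simp
    rw [h3]
  constructor
  · rintro ⟨t, h1, h2, h3⟩
    exact ⟨t, h1, h2, h3.imp id (fun h => h.imp id (fun h => (key t).1 h))⟩
  · rintro ⟨t, h1, h2, h3⟩
    exact ⟨t, h1, h2, h3.imp id (fun h => h.imp id (fun h => (key t).2 h))⟩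

lemma int_iff {A : Fin β → AbV K n}
    (X D W : Eqs K n β) (m η C : ℝ) {L : Type} [Field L]
    [NumberField L] [Algebra K L] (S : Pls L) (P : Pts A L) :
    Integral X D W m η C S P ↔ IntX X.f D.f D.δ W.f W.δ m η C S P := by
  have hd : (0 : ℝ) < Module.finrank ℚ L := Nat.cast_pos.2 Module.finrank_pos
  have key : ∀ t : Fin n → L, (counting D S (full t P) ≤ m * heightW W (full t P) +
      η * height P + C ↔
      Pool.Agent.TH954.V.tot (fun w : AbsoluteValue L ℝ =>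
          -Real.log (⨆ i, nvW w (D.δ i) (D.f i) (full t P))) -
        part S (fun w : AbsoluteValue L ℝ =>
          -Real.log (⨆ i, nvW w (D.δ i) (D.f i) (full t P))) ≤
      m * Pool.Agent.TH954.V.tot (fun w : AbsoluteValue L ℝ =>
          -Real.log (⨆ i, nvW w (W.δ i) (W.f i) (full t P))) + η * htL P +
        C * Module.finrank ℚ L) := by
    intro t
    have h1 : heightW W (full t P) = Pool.Agent.TH954.V.tot (fun w : AbsoluteValue L ℝ =>
        -Real.log (⨆ i, nvW w (W.δ i) (W.f i) (full t P))) /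
        Module.finrank ℚ L := rfl
    have h2 : height P = htL P / Module.finrank ℚ L := rfl
    have h4 : counting D S (full t P) = (Pool.Agent.TH954.V.tot (fun w : AbsoluteValue L ℝ =>
          -Real.log (⨆ i, nvW w (D.δ i) (D.f i) (full t P))) -
        part S (fun w : AbsoluteValue L ℝ =>
          -Real.log (⨆ i, nvW w (D.δ i) (D.f i) (full t P)))) / Module.finrank ℚ L := by
      rw [sub_div]
      rfl
    rw [h1, h2, h4, div_le_iff₀ hd]
    have h3 : (m * (Pool.Agent.TH954.V.tot (fun w : AbsoluteValue L ℝ =>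
          -Real.log (⨆ i, nvW w (W.δ i) (W.f i) (full t P))) / Module.finrank ℚ L) +
          η * (htL P / Module.finrank ℚ L) + C) * Module.finrank ℚ L =
        m * Pool.Agent.TH954.V.tot (fun w : AbsoluteValue L ℝ =>
          -Real.log (⨆ i, nvW w (W.δ i) (W.f i) (full t P))) + η * htL P +
          C * Module.finrank ℚ L := by
      field_simp
    rw [h3]
  constructor
  · rintro ⟨t, h1, h2, h3, h4⟩
    exact ⟨t, h1, h2, h3, (key t).1 h4⟩
  · rintro ⟨t, h1, h2, h3, h4⟩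
    exact ⟨t, h1, h2, h3, (key t).2 h4⟩

/-- the conclusions for a set of points -/
lemma few {A : Fin β → AbV K n} {C c : ℝ} {κ : ℕ} {L : Type} [Field L] [NumberField L]
    [Algebra K L] (φ : L →ₐ[K] AlgebraicClosure K) (Γ : AddSubgroup (Bp A L)) (T M : ℝ)
    (hM : M = c ^ (1 + Module.finrank ℤ Γ) * (1 + Real.log T)) (Ex : Bp A L → Prop)
    (h : ∃ (H : MvPolynomial (Fin β × Fin n) L) (σ : Fin β → ℕ), MH σ H ∧
      (∀ b, (σ b : ℝ) ≤ c ^ (1 + Module.finrank ℤ Γ) * (1 + Real.log T)) ∧ NZ1 A L H ∧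
      (∀ P ∈ Γ, htL P ≤ T * Module.finrank ℚ L → Ex P → ev H (vc P) = 0) ∧
      ∃ Z : Finset (Bp A L), (∀ z ∈ Z, z ∈ Γ) ∧
        (Z.card : ℝ) ≤ (c ^ (1 + Module.finrank ℤ Γ) * (1 + Real.log T)) ^ κ ∧
        ∀ P ∈ Γ, htL P ≤ T * Module.finrank ℚ L → Ex P →
          ¬ Ueno (mpc φ H) (bcB φ P) → ∃ z ∈ Z, htL (P - z) ≤ C * Module.finrank ℚ L) :
    FewOutsideCosets φ Γ C M κ {P : Pts A L | P ∈ Γ ∧ height P ≤ T ∧ Ex P} ∧
      (Simple A → (({P : Pts A L | P ∈ Γ ∧ height P ≤ T ∧ Ex P}.ncard : ℕ) : ℝ) ≤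
        M ^ κ * {P | P ∈ Γ ∧ height P ≤ C}.ncard) := by
  classical
  have hd : (0 : ℝ) < Module.finrank ℚ L := Nat.cast_pos.2 Module.finrank_pos
  have hht : ∀ (P : Pts A L) (B : ℝ), height P ≤ B ↔ htL P ≤ B * Module.finrank ℚ L := by
    intro P B
    have h6 : height P = htL P / Module.finrank ℚ L := rfl
    rw [h6, div_le_iff₀ hd]
  obtain ⟨H, σ, h1, h2, h3, h4, Z, h5, h6, h7⟩ := h
  rw [← hM] at h6
  have key : ∀ P ∈ {P : Pts A L | P ∈ Γ ∧ height P ≤ T ∧ Ex P}, ¬ OnCoset φ H P →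
      ∃ z ∈ Z, height (P - z) ≤ C := by
    rintro P ⟨hP, hPT, hE⟩ hU
    obtain ⟨z, hz, hz'⟩ := h7 P hP ((hht P T).1 hPT) hE (fun h => hU ((onC_iff φ H P).2 h))
    exact ⟨z, hz, (hht (P - z) C).2 hz'⟩
  refine ⟨⟨H, σ, h1, fun b => by rw [hM]; exact h2 b, h3, fun P ⟨hP, hPT, hE⟩ =>
    h4 P hP ((hht P T).1 hPT) hE, Z, h5, h6, key⟩, fun hs => ?_⟩
  set Q : Set (Pts A L) := {P | P ∈ Γ ∧ height P ≤ C} with hQ
  have hQf : Q.Finite := (north L C).subset (fun P hP => hP.2)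
  have hsub : {P : Pts A L | P ∈ Γ ∧ height P ≤ T ∧ Ex P} ⊆
      ((Z ×ˢ hQf.toFinset).image (fun p => p.1 + p.2) : Finset (Pts A L)) := by
    intro P hPE
    obtain ⟨z, hz, hz'⟩ := key P hPE (not_onC hs φ h1 h3 P)
    refine Finset.mem_coe.2 (Finset.mem_image.2 ⟨(z, P - z), Finset.mem_product.2 ⟨hz, ?_⟩, ?_⟩)
    · exact hQf.mem_toFinset.2 ⟨Γ.sub_mem hPE.1 (h5 z hz), hz'⟩
    · exact add_sub_cancel z P
  have h8 := Set.ncard_le_ncard hsub (Finset.finite_toSet _)
  rw [Set.ncard_coe_finset] at h8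
  have h9 : (((Z ×ˢ hQf.toFinset).image (fun p => p.1 + p.2)).card : ℝ) ≤
      (Z.card : ℝ) * Q.ncard := by
    rw [Set.ncard_eq_toFinset_card Q hQf]
    have := Finset.card_image_le (s := Z ×ˢ hQf.toFinset) (f := fun p => p.1 + p.2)
    rw [Finset.card_product] at this
    exact_mod_cast this
  have h10 : ((Set.ncard {P : Pts A L | P ∈ Γ ∧ height P ≤ T ∧ Ex P} : ℕ) : ℝ) ≤
      (((Z ×ˢ hQf.toFinset).image (fun p => p.1 + p.2)).card : ℝ) := by exact_mod_cast h8
  refine h10.trans (h9.trans ?_)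
  exact mul_le_mul_of_nonneg_right h6 (Nat.cast_nonneg _)

/-- Vojta's inequality for points of bounded degree -/
theorem vojS (K : Type) [Field K] [NumberField K] (n β : ℕ) (A : Fin β → AbV K n)
    (hA : DimensionLe A) (X D W : Eqs K n β) (hD : ImageCodim A X D 1) (hW : ImageCodim A X W 2)
    (S0 : Finset ℕ) (hS0 : ∀ p ∈ S0, p ≠ 0) (r : ℕ) (ε : ℝ) (hε : 0 < ε) :
    ∃ (C c : ℝ) (κ : ℕ), ∀ (L : Type) [Field L] [NumberField L] [Algebra K L]
      (φ : L →ₐ[K] AlgebraicClosure K) (Γ : AddSubgroup (Pts A L)), Γ.FG → ∀ T M : ℝ, 1 ≤ T →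
      M = c ^ (1 + Module.finrank ℤ Γ) * (1 + Real.log T) →
      FewOutsideCosets φ Γ C M κ (ViolatingSet X D W S0 r ε C Γ T) ∧
      (Simple A → ((ViolatingSet X D W S0 r ε C Γ T).ncard : ℝ) ≤
        M ^ κ * {P | P ∈ Γ ∧ height P ≤ C}.ncard) := by
  obtain ⟨C, c, κ, hc, hC, hmain⟩ := vojX A hA (Fin X.s) (Fin D.s) (Fin W.s) X.f
    (fun i => ⟨X.δ i, X.hom i⟩) D.f D.δ D.hom W.f W.δ W.hom
    (fun F _ _ t P ht h1 h2 => hD F t P ht h1 h2) (fun F _ _ t P ht h1 h2 => hW F t P ht h1 h2)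
    ε hε _ (adm_deg A r S0 hS0)
  refine ⟨C, c, κ, fun L _ _ _ φ Γ hΓ T M hT hM => ?_⟩
  have h1 := few φ Γ T M hM (C := C) (κ := κ)
    (fun P => DegreeLe r P ∧ Violating X D W S0 ε C P) (by
      obtain ⟨H, σ, a1, a2, a3, a4, Z, a5, a6, a7⟩ := hmain C le_rfl L φ (plsOf S0 hS0 L) Γ hΓ T hT
      have hS : ∀ P : Bp A L, DegreeLe r P →
          (∀ v ∈ (plsOf S0 hS0 L).fin, ∃ p ∈ S0, v (p : L) < 1) ∧ DegLe r P := by
        intro P hP
        exact ⟨fun v hv => (Set.Finite.mem_toFinset (over_finite S0 hS0 L)).1 hv, hP⟩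
      exact ⟨H, σ, a1, a2, a3, fun P hP hPT hE => a4 P hP hPT (hS P hE.1)
        ((viol_iff X D W S0 hS0 ε C P).1 hE.2), Z, a5, a6, fun P hP hPT hE hU =>
        a7 P hP hPT (hS P hE.1) ((viol_iff X D W S0 hS0 ε C P).1 hE.2) hU⟩)
  exact h1

/-- integral points -/
theorem intS (K : Type) [Field K] [NumberField K] (n β : ℕ) (A : Fin β → AbV K n)
    (hA : DimensionLe A) (X D W : Eqs K n β) (hD : ImageCodim A X D 1) (hW : ImageCodim A X W 2)
    (G : MvPolynomial (Fin β × Fin n) K) (σ : Fin β → ℕ) (hσ : MH σ G) (hσ1 : ∀ b, 1 ≤ σ b)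
    (hG : ∀ (F : Type) [Field F] [Algebra K F] (t : Fin n → F) (P : Pts A F), t ≠ 0 →
      On X t P → ev G (crds P) = 0 → On D t P ∨ On W t P) :
    ∃ η : ℝ, 0 < η ∧ ∀ (m C1 : ℝ), 0 ≤ m → ∀ s : ℕ, ∃ (C c : ℝ) (κ : ℕ),
      ∀ (L : Type) [Field L] [NumberField L] [Algebra K L]
      (φ : L →ₐ[K] AlgebraicClosure K) (S : Pls L), S.card ≤ s →
      ∀ (Γ : AddSubgroup (Pts A L)), Γ.FG → ∀ T M : ℝ, 1 ≤ T →
      M = c ^ (1 + Module.finrank ℤ Γ) * (1 + Real.log T) →
      FewOutsideCosets φ Γ C M κ (IntegralSet X D W m η C1 S Γ C T) ∧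
      (Simple A → ({P | P ∈ Γ ∧ height P ≤ T ∧ Integral X D W m η C1 S P}.ncard : ℝ) ≤
        (M ^ κ + 1) * {P | P ∈ Γ ∧ height P ≤ C}.ncard) := by
  obtain ⟨η, hη, hint⟩ := intX A hA (Fin X.s) (Fin D.s) (Fin W.s) X.f
    (fun i => ⟨X.δ i, X.hom i⟩) D.f D.δ D.hom W.f W.δ W.hom
    (fun F _ _ t P ht h1 h2 => hD F t P ht h1 h2) (fun F _ _ t P ht h1 h2 => hW F t P ht h1 h2)
    G σ hσ hσ1 (fun F _ _ t P ht h1 h2 => hG F t P ht h1 h2)
  refine ⟨η, hη, fun m C1 hm s => ?_⟩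
  obtain ⟨C, c, κ, hc, hC, hmain⟩ := hint m C1 hm _ (adm_card A s)
  refine ⟨C, c, κ, fun L _ _ _ φ S hS Γ hΓ T M hT hM => ?_⟩
  have hd : (0 : ℝ) < Module.finrank ℚ L := Nat.cast_pos.2 Module.finrank_pos
  have hlt : ∀ P : Pts A L, C < height P ↔ C * Module.finrank ℚ L < htL P := by
    intro P
    have h6 : height P = htL P / Module.finrank ℚ L := rfl
    rw [h6, lt_div_iff₀ hd]
  have h1 := few φ Γ T M hM (C := C) (κ := κ)
    (fun P => C < height P ∧ Integral X D W m η C1 S P) (by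
      obtain ⟨H, σ, a1, a2, a3, a4, Z, a5, a6, a7⟩ := hmain L φ S Γ hΓ T hT
      exact ⟨H, σ, a1, a2, a3, fun P hP hPT hE => a4 P hP ((hlt P).1 hE.1) hPT hS
        ((int_iff X D W m η C1 S P).1 hE.2), Z, a5, a6, fun P hP hPT hE hU =>
        a7 P hP ((hlt P).1 hE.1) hPT hS ((int_iff X D W m η C1 S P).1 hE.2) hU⟩)
  have hset : IntegralSet X D W m η C1 S Γ C T =
      {P : Pts A L | P ∈ Γ ∧ height P ≤ T ∧ C < height P ∧ Integral X D W m η C1 S P} := by
    ext P
    constructor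
    · rintro ⟨a, b, c, d⟩
      exact ⟨a, c, b, d⟩
    · rintro ⟨a, b, c, d⟩
      exact ⟨a, c, b, d⟩
  rw [hset]
  refine ⟨h1.1, fun hs => ?_⟩
  have hf1 : {P : Pts A L | P ∈ Γ ∧ height P ≤ T ∧ C < height P ∧
      Integral X D W m η C1 S P}.Finite := (north L T).subset (fun P hP => hP.2.1)
  have hf2 : {P : Pts A L | P ∈ Γ ∧ height P ≤ C}.Finite := (north L C).subset (fun P hP => hP.2)
  have hsub : {P : Pts A L | P ∈ Γ ∧ height P ≤ T ∧ Integral X D W m η C1 S P} ⊆
      {P : Pts A L | P ∈ Γ ∧ height P ≤ T ∧ C < height P ∧ Integral X D W m η C1 S P} ∪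
      {P : Pts A L | P ∈ Γ ∧ height P ≤ C} := by
    rintro P ⟨a, b, d⟩
    by_cases hP : C < height P
    · exact Or.inl ⟨a, b, hP, d⟩
    · exact Or.inr ⟨a, not_lt.1 hP⟩
  have h2 := (Set.ncard_le_ncard hsub (hf1.union hf2)).trans (Set.ncard_union_le _ _)
  have h3 : (({P : Pts A L | P ∈ Γ ∧ height P ≤ T ∧ Integral X D W m η C1 S P}.ncard : ℕ) : ℝ) ≤
      ({P : Pts A L | P ∈ Γ ∧ height P ≤ T ∧ C < height P ∧
        Integral X D W m η C1 S P}.ncard : ℝ) +
      ({P : Pts A L | P ∈ Γ ∧ height P ≤ C}.ncard : ℝ) := by exact_mod_cast h2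
  have h4 := h1.2 hs
  linarith

end Pool.Agent.H14.DV.S
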