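import Pool.Agent.H14.DV.Null

/-!
# Vojta's inequality with a divisor at few places, and integral points
-/

set_option autoImplicit false
set_option linter.unusedSectionVars false

open MvPolynomial Pool.Agent.TH954.X Pool.Agent.TH954.V Pool.Agent.TH954.Z Pool.Agent.H14.LB
open Pool.Agent.H14.PL NumberField

namespace Pool.Agent.H14.DV

variable {K : Type} [Field K] [NumberField K] {n β : ℕ}

/-- the exceptional points of small height lie on a fixed hypersurface -/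
theorem smallW (A : Fin β → AbV K n) (E1 E2 : Type) [Fintype E1] [Fintype E2]
    (g : E1 → MvPolynomial (Option (Fin β) × Fin n) K) (hg : ∀ i, ∃ γ, MH γ (g i))
    (f : E2 → MvPolynomial (Option (Fin β) × Fin n) K) (δ : E2 → Option (Fin β) → ℕ)
    (hf : ∀ i, MH (δ i) (f i))
    (hcod : ∀ (F : Type) [Field F] [Algebra K F] (t : Fin n → F) (P : Bp A F), t ≠ 0 →
      (∀ i, ev (g i) (fl t P) = 0) → (∀ i, ev (f i) (fl t P) = 0) →
      td (K := K) (vc P) + ((2 : ℕ) : Cardinal) ≤ ((∑ b, (A b).dim : ℕ) : Cardinal))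
    (ε : ℝ) (hε : 0 < ε) (c0 : ℝ) :
    ∃ (h0 : MvPolynomial (Fin β × Fin n) K) (η : Fin β → ℕ) (C : ℝ), MH η h0 ∧ NZ A h0 ∧
      ∀ (L : Type) [Field L] [NumberField L] [Algebra K L] (P : Bp A L),
        htL P ≤ c0 * Module.finrank ℚ L → ExcX g f δ ε C L P → ev (mp L h0) (vc P) = 0 := by
  obtain ⟨s, h, η, hη, hcd, N, C', hN, hC', hred⟩ := redExc A E1 E2 g hg f δ hf 2 hcod
  obtain ⟨l0, hl0⟩ := exists_NZ A h hcd
  obtain ⟨A1, A2, hA1, hA2, hfam⟩ := tot_fam_le A h η hη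
  have hNR : (0 : ℝ) < N := by exact_mod_cast hN
  refine ⟨h l0, η l0, C' + N * (A1 * c0 + A2), hη l0, hl0, fun L _ _ _ P hP hE => ?_⟩
  rw [ev_mp]
  rcases hred _ _ L P hE with h1 | h1
  · exact h1 l0
  · by_cases hall : ∀ i, ev (h i) (vc P) = 0
    · exact hall l0
    · exfalso
      have h2 : tot (lamL L η h (vc P)) ≤ A1 * htL P + A2 * Module.finrank ℚ L := hfam L P hall
      have h3 : (C' + N * (A1 * c0 + A2) - C') / N = A1 * c0 + A2 := by
        field_simp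
        ring
      rw [h3] at h1
      have h5 : 0 ≤ ε / N * htL P := mul_nonneg (by positivity) (htL_nonneg _)
      have h6 := mul_le_mul_of_nonneg_left hP hA1
      linarith

/-- the points `P` of `B(L)` over which there is a point of `X(L)` on `W` or `D` or not satisfying
the inequality -/
def ExV {A : Fin β → AbV K n} {E1 E2 E3 : Type}
    (g : E1 → MvPolynomial (Option (Fin β) × Fin n) K)
    (f : E2 → MvPolynomial (Option (Fin β) × Fin n) K) (δ : E2 → Option (Fin β) → ℕ)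
    (f' : E3 → MvPolynomial (Option (Fin β) × Fin n) K) (δ' : E3 → Option (Fin β) → ℕ)
    (ε C : ℝ) {L : Type} [Field L] [NumberField L] [Algebra K L] (S : Pls L) (P : Bp A L) : Prop :=
  ∃ t : Fin n → L, t ≠ 0 ∧ (∀ i, ev (g i) (fl t P) = 0) ∧ ((∀ i, ev (f i) (fl t P) = 0) ∨
    (∀ i, ev (f' i) (fl t P) = 0) ∨ ε * htL P + C * Module.finrank ℚ L <
      part S (fun w : AbsoluteValue L ℝ => -Real.log (⨆ i, nvW w (δ i) (f i) (fl t P))) +
      tot (fun w : AbsoluteValue L ℝ => -Real.log (⨆ i, nvW w (δ' i) (f' i) (fl t P))))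

lemma ExV_or {A : Fin β → AbV K n} {E1 E2 E3 : Type}
    (g : E1 → MvPolynomial (Option (Fin β) × Fin n) K)
    (f : E2 → MvPolynomial (Option (Fin β) × Fin n) K) (δ : E2 → Option (Fin β) → ℕ)
    (f' : E3 → MvPolynomial (Option (Fin β) × Fin n) K) (δ' : E3 → Option (Fin β) → ℕ)
    {ε C : ℝ} {L : Type} [Field L] [NumberField L] [Algebra K L] {S : Pls L} {P : Bp A L}
    (h : ExV g f δ f' δ' ε C S P) :
    ExcSX g f δ (ε / 2) (C / 2) S P ∨ ExcX g f' δ' (ε / 2) (C / 2) L P := by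
  obtain ⟨t, ht, h1, h2 | h2 | h2⟩ := h
  · exact Or.inl ⟨t, ht, h1, Or.inl h2⟩
  · exact Or.inr ⟨t, ht, h1, Or.inl h2⟩
  · by_cases h3 : ε / 2 * htL P + C / 2 * Module.finrank ℚ L <
      part S (fun w : AbsoluteValue L ℝ => -Real.log (⨆ i, nvW w (δ i) (f i) (fl t P)))
    · exact Or.inl ⟨t, ht, h1, Or.inr h3⟩
    · exact Or.inr ⟨t, ht, h1, Or.inr (by linarith)⟩

/-- **Vojta's inequality with a divisor at few places.** -/
theorem vojX (A : Fin β → AbV K n) (hA : Top A) (E1 E2 E3 : Type) [Fintype E1] [Fintype E2]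
    [Fintype E3]
    (g : E1 → MvPolynomial (Option (Fin β) × Fin n) K) (hg : ∀ i, ∃ γ, MH γ (g i))
    (f : E2 → MvPolynomial (Option (Fin β) × Fin n) K) (δ : E2 → Option (Fin β) → ℕ)
    (hf : ∀ i, MH (δ i) (f i))
    (f' : E3 → MvPolynomial (Option (Fin β) × Fin n) K) (δ' : E3 → Option (Fin β) → ℕ)
    (hf' : ∀ i, MH (δ' i) (f' i))
    (hcod : ∀ (F : Type) [Field F] [Algebra K F] (t : Fin n → F) (P : Bp A F), t ≠ 0 →
      (∀ i, ev (g i) (fl t P) = 0) → (∀ i, ev (f i) (fl t P) = 0) →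
      td (K := K) (vc P) + ((1 : ℕ) : Cardinal) ≤ ((∑ b, (A b).dim : ℕ) : Cardinal))
    (hcod' : ∀ (F : Type) [Field F] [Algebra K F] (t : Fin n → F) (P : Bp A F), t ≠ 0 →
      (∀ i, ev (g i) (fl t P) = 0) → (∀ i, ev (f' i) (fl t P) = 0) →
      td (K := K) (vc P) + ((2 : ℕ) : Cardinal) ≤ ((∑ b, (A b).dim : ℕ) : Cardinal))
    (ε : ℝ) (hε : 0 < ε) (𝒮 : Cnd A) (h𝒮 : Adm A 𝒮) :
    ∃ (C0 c : ℝ) (κ : ℕ), 1 ≤ c ∧ 0 ≤ C0 ∧ ∀ C : ℝ, C0 ≤ C →
      (∀ (L : Type) [Field L] [NumberField L] [Algebra K L] (φ : L →ₐ[K] AlgebraicClosure K)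
        (S : Pls L) (Γ : AddSubgroup (Bp A L)), Γ.FG →
        ∀ T : ℝ, 1 ≤ T → ∃ (H : MvPolynomial (Fin β × Fin n) L) (σ : Fin β → ℕ), MH σ H ∧
          (∀ b, (σ b : ℝ) ≤ c ^ (1 + Module.finrank ℤ Γ) * (1 + Real.log T)) ∧ NZ1 A L H ∧
          (∀ P ∈ Γ, htL P ≤ T * Module.finrank ℚ L → 𝒮 L S P → ExV g f δ f' δ' ε C S P →
            ev H (vc P) = 0) ∧
          ∃ Z : Finset (Bp A L), (∀ z ∈ Z, z ∈ Γ) ∧
            (Z.card : ℝ) ≤ (c ^ (1 + Module.finrank ℤ Γ) * (1 + Real.log T)) ^ κ ∧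
            ∀ P ∈ Γ, htL P ≤ T * Module.finrank ℚ L → 𝒮 L S P → ExV g f δ f' δ' ε C S P →
              ¬ Ueno (mpc φ H) (bcB φ P) → ∃ z ∈ Z, htL (P - z) ≤ C * Module.finrank ℚ L) := by
  classical
  obtain ⟨D1, δ1, C1, hδ1, hδ1', hC1, hloc1⟩ := locD A E1 E2 g hg f δ hf hcod (ε / 2)
    (by positivity) 𝒮 h𝒮
  obtain ⟨D2, δ2, C2, hδ2, hδ2', hC2, hloc2⟩ := loc A hA E1 E3 g hg f' δ' hf' hcod' (ε / 2)
    (by positivity)
  set δ0 : ℝ := min δ1 δ2 with hδ0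
  have hδpos : 0 < δ0 := lt_min hδ1 hδ2
  have hδ4 : δ0 ≤ 1 / 4 := (min_le_left _ _).trans hδ1'
  obtain ⟨c0, hc0, hpoly⟩ := polyG A (D1 + D2) δ0 hδpos hδ4
  obtain ⟨h1, η1, C3, hη1, hN1, hs1⟩ := smallD A E1 E2 g hg f δ hf hcod (ε / 2) (by positivity) c0
  obtain ⟨h2, η2, C4, hη2, hN2, hs2⟩ := smallW A E1 E3 g hg f' δ' hf' hcod' (ε / 2)
    (by positivity) c0
  obtain ⟨C5, c, κ, hc, hmain⟩ := hpoly (∑ b, (η1 b + η2 b))
  set C0 : ℝ := max (2 * C1) (max (2 * C2) (max (2 * C3) (max (2 * C4) C5))) with hC0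
  have e1 : 2 * C1 ≤ C0 := le_max_left _ _
  have e2 : 2 * C2 ≤ C0 := (le_max_left _ _).trans (le_max_right _ _)
  have e3 : 2 * C3 ≤ C0 := (le_max_left _ _).trans ((le_max_right _ _).trans (le_max_right _ _))
  have e4 : 2 * C4 ≤ C0 := (le_max_left _ _).trans ((le_max_right _ _).trans
    ((le_max_right _ _).trans (le_max_right _ _)))
  have e5 : C5 ≤ C0 := (le_max_right _ _).trans ((le_max_right _ _).trans
    ((le_max_right _ _).trans (le_max_right _ _)))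
  refine ⟨C0, c, κ, hc, by linarith, fun C hC L _ _ _ φ S Γ hΓ T hT => ?_⟩
  have hd0 : (0 : ℝ) ≤ (Module.finrank ℚ L : ℝ) := Nat.cast_nonneg _
  have hloc2' : LocSt A D2 δ2 L (ExcX g f' δ' (ε / 2) C2 L) := by
    intro P0
    obtain ⟨H, σ, h1, h2, h3, h4⟩ := hloc2 L P0
    refine ⟨H, σ, h1, h2, h3, fun y hy hyE => h4 y ?_⟩
    exact ⟨L, inferInstance, inferInstance, inferInstance, AlgHom.id K L, P0, y, rfl, rfl, hy,
      hyE⟩
  have hlocE : LocSt A (D1 + D2) δ0 L (fun P => 𝒮 L S P ∧ ExV g f δ f' δ' ε C S P) := by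
    refine (((hloc1 L S).anti (min_le_left δ1 δ2) (fun y hy => hy)).or
      (hloc2'.anti (min_le_right δ1 δ2) (fun y hy => hy))).anti le_rfl (fun y hy => ?_)
    rcases ExV_or g f δ f' δ' hy.2 with h5 | h5
    · exact Or.inl ⟨hy.1, ExcSX_mono g f δ (by linarith) h5⟩
    · exact Or.inr (ExcX_mono g f' δ' (by linarith) h5)
  obtain ⟨H, σ, a1, a2, a3, a4, Z, a5, a6, a7⟩ := hmain L φ
    (fun P => 𝒮 L S P ∧ ExV g f δ f' δ' ε C S P) hlocE
    (mp L h1 * mp L h2) _ (MH_mul (MH_mp hη1) (MH_mp hη2)) (fun b =>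
      Finset.single_le_sum (f := fun b => η1 b + η2 b) (fun _ _ => Nat.zero_le _)
        (Finset.mem_univ b))
    (NZ1_mul A L (MH_mp hη1) (MH_mp hη2) (NZ1_of_NZ A L hN1) (NZ1_of_NZ A L hN2))
    (fun P hP hE => by
      have e : ev (mp L h1 * mp L h2) (vc P) = ev (mp L h1) (vc P) * ev (mp L h2) (vc P) := by
        simp only [ev, map_mul]
      rw [e]
      rcases ExV_or g f δ f' δ' hE.2 with h5 | h5
      · rw [hs1 L S P hP (ExcSX_mono g f δ (by linarith) h5), zero_mul]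
      · rw [hs2 L P hP (ExcX_mono g f' δ' (by linarith) h5), mul_zero]) Γ hΓ T hT
  refine ⟨H, σ, a1, a2, a3, fun P hP hPT hS hE => a4 P hP hPT ⟨hS, hE⟩, Z, a5, a6,
    fun P hP hPT hS hE hU => ?_⟩
  obtain ⟨z, hz, hz'⟩ := a7 P hP hPT ⟨hS, hE⟩ hU
  exact ⟨z, hz, hz'.trans (mul_le_mul_of_nonneg_right (e5.trans hC) hd0)⟩

/-- the height bound -/
theorem htBound (A : Fin β → AbV K n) (E1 E2 E3 : Type) [Fintype E1] [Fintype E2]
    [Fintype E3]
    (g : E1 → MvPolynomial (Option (Fin β) × Fin n) K) (hg : ∀ i, ∃ γ, MH γ (g i))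
    (f : E2 → MvPolynomial (Option (Fin β) × Fin n) K) (δ : E2 → Option (Fin β) → ℕ)
    (hf : ∀ i, MH (δ i) (f i))
    (f' : E3 → MvPolynomial (Option (Fin β) × Fin n) K) (δ' : E3 → Option (Fin β) → ℕ)
    (hf' : ∀ i, MH (δ' i) (f' i))
    (G : MvPolynomial (Fin β × Fin n) K) (σ : Fin β → ℕ) (hσ : MH σ G) (hσ1 : ∀ b, 1 ≤ σ b)
    (hG : ∀ (F : Type) [Field F] [Algebra K F] (t : Fin n → F) (P : Bp A F), t ≠ 0 →
      (∀ i, ev (g i) (fl t P) = 0) → ev G (vc P) = 0 →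
      (∀ i, ev (f i) (fl t P) = 0) ∨ ∀ i, ev (f' i) (fl t P) = 0) :
    ∃ (N : ℕ) (C' : ℝ), 0 < N ∧ 0 ≤ C' ∧ ∀ (L : Type) [Field L] [NumberField L] [Algebra K L]
      (t : Fin n → L) (P : Bp A L), t ≠ 0 → (∀ i, ev (g i) (fl t P) = 0) →
      (¬ ∀ i, ev (f i) (fl t P) = 0) → (¬ ∀ i, ev (f' i) (fl t P) = 0) →
      htL P ≤ N * (tot (fun w : AbsoluteValue L ℝ =>
          -Real.log (⨆ i, nvW w (δ i) (f i) (fl t P))) +
        tot (fun w : AbsoluteValue L ℝ => -Real.log (⨆ i, nvW w (δ' i) (f' i) (fl t P)))) +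
        C' * Module.finrank ℚ L := by
  classical
  obtain ⟨N, M, A0, hN, hM, hl⟩ := nullG K n β A E1 E2 E3 g hg f δ hf f' δ' hf' G σ hσ hG
  obtain ⟨ck, hck0, hck⟩ := tot_kap A0 hM 1
  refine ⟨N, ck, hN, hck0, fun L _ _ _ t P ht hgt hD hW => ?_⟩
  have hNR : (0 : ℝ) < N := by exact_mod_cast hN
  have hG0 : ev G (vc P) ≠ 0 := by
    intro h
    rcases hG L t P ht hgt h with h1 | h1
    · exact hD h1
    · exact hW h1
  have hG0' : ev (mp L G) (vc P) ≠ 0 := by rw [ev_mp]; exact hG0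
  have hu0 : ∀ b, vc P b ≠ 0 := fun b => (P b).2.1.ne_zero
  have hful : ∀ o, fl t P o ≠ 0 := by
    intro o
    cases o with
    | none => exact ht
    | some b => exact hu0 b
  push Not at hD hW
  obtain ⟨i0, hi0⟩ := hD
  obtain ⟨j0, hj0⟩ := hW
  have hne2 : Nonempty E2 := ⟨i0⟩
  have hne3 : Nonempty E3 := ⟨j0⟩
  have hpD : ∀ w : AbsoluteValue L ℝ, 0 < ⨆ i, nvW w (δ i) (f i) (fl t P) := fun w => by
    have h1 := Pool.Agent.TH954.Y.sup_nvW_pos w δ (fun i => mp L (f i)) hful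
      ⟨i0, by rw [ev_mp]; exact hi0⟩
    simpa only [nvW_mp] using h1
  have hpW : ∀ w : AbsoluteValue L ℝ, 0 < ⨆ i, nvW w (δ' i) (f' i) (fl t P) := fun w => by
    have h1 := Pool.Agent.TH954.Y.sup_nvW_pos w δ' (fun i => mp L (f' i)) hful
      ⟨j0, by rw [ev_mp]; exact hj0⟩
    simpa only [nvW_mp] using h1
  have hk : ∀ w : AbsoluteValue L ℝ, 0 < kap A0 M 1 w := fun w =>
    zero_lt_one.trans_le (one_le_kap A0 hM 1 w)
  have hpG : ∀ w : AbsoluteValue L ℝ, 0 < nvW w σ G (vc P) := fun w => by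
    have := Pool.Agent.TH954.Y.nvW_pos w σ (mp L G) hu0 hG0'
    rwa [nvW_mp] at this
  have hcmp : ∀ w : AbsoluteValue L ℝ, (-1 : ℝ) * Real.log (nvW w σ (mp L G) (vc P)) ≤
      (N : ℝ) * ((-Real.log (⨆ i, nvW w (δ i) (f i) (fl t P))) +
        (-Real.log (⨆ i, nvW w (δ' i) (f' i) (fl t P)))) + Real.log (kap A0 M 1 w) := by
    intro w
    obtain ⟨i1, hi1⟩ := exists_eq_ciSup_of_finite (f := fun i => nvW w (δ i) (f i) (fl t P))
    obtain ⟨j1, hj1⟩ := exists_eq_ciSup_of_finite (f := fun i => nvW w (δ' i) (f' i) (fl t P))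
    have h1 := hl L w t P ht hgt (i1, j1)
    have h2 := hpD w
    have h3 := hpW w
    rw [← hi1] at h2 ⊢
    rw [← hj1] at h3 ⊢
    have h4 := Real.log_le_log (pow_pos (mul_pos h2 h3) N) h1
    rw [Real.log_pow, Real.log_mul h2.ne' h3.ne', Real.log_mul (hk w).ne' (hpG w).ne'] at h4
    rw [nvW_mp]
    linarith
  have hFG := Pool.Agent.TH954.Y.FS_lognv σ (mp L G) hu0 hG0'
  have hFD : FS (fun w : AbsoluteValue L ℝ => -Real.log (⨆ i, nvW w (δ i) (f i) (fl t P))) := by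
    have h1 := Pool.Agent.TH954.Y.FS_neg (Pool.Agent.TH954.Y.FS_logsup δ
      (fun i => mp L (f i)) (fun i => MH_mp (hf i)) hful ⟨i0, by rw [ev_mp]; exact hi0⟩)
    simpa only [nvW_mp] using h1
  have hFW : FS (fun w : AbsoluteValue L ℝ => -Real.log (⨆ i, nvW w (δ' i) (f' i) (fl t P))) := by
    have h1 := Pool.Agent.TH954.Y.FS_neg (Pool.Agent.TH954.Y.FS_logsup δ'
      (fun i => mp L (f' i)) (fun i => MH_mp (hf' i)) hful ⟨j0, by rw [ev_mp]; exact hj0⟩)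
    simpa only [nvW_mp] using h1
  have htot := tot_le (FS_mul hFG (-1)) (FS_add (FS_mul (FS_add hFD hFW) (N : ℝ)) (hck L).1)
    (fun w => hcmp _) (fun w => hcmp _)
  rw [tot_mul hFG, Pool.Agent.TH954.Y.tot_lognv σ (mp L G) hu0 hG0',
    tot_add (FS_mul (FS_add hFD hFW) _) (hck L).1, tot_mul (FS_add hFD hFW),
    tot_add hFD hFW] at htot
  have h5 : htL P ≤ ∑ j, (σ j : ℝ) * Height.logHeight (vc P j) := by
    unfold htL
    refine Finset.sum_le_sum (fun b _ => ?_)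
    have h6 : (1 : ℝ) ≤ σ b := by exact_mod_cast hσ1 b
    exact le_mul_of_one_le_left (Height.logHeight_nonneg _) h6
  have h6 := (hck L).2
  linarith

end Pool.Agent.H14.DV
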